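import Pool.Agent.H96.ZM.LF
import Pool.Agent.H96.S.GA
import Pool.Agent.H96.Z.GA

/-!
# The global data of a cover of a product of fibre products of circuit varieties
-/

set_option autoImplicit false
set_option linter.unusedSectionVars false

namespace Pool.Agent.H96.ZM

open MvPolynomial IsLocalRing Pool.Agent.H96.Reg Pool.Agent.H96.VL Pool.Agent.H96.W
open Pool.Agent.H96.Z (mon_div mon_zero')
open Pool.Agent.H96.S (Va FL FD cond_t cond_f gen_map mon_map aeval_am)

/-- The global data. -/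
structure GD (p : ℕ) (K : Type) [Field K] [Algebra (ZMod p) K]
    (I : Type) [Fintype I] [DecidableEq I] (F : I → Type) [∀ i, Field (F i)]
    [∀ i, Algebra (ZMod p) (F i)] [∀ i, Algebra (F i) K] (A J : I → Type)
    [∀ i, Fintype (A i)] [∀ i, DecidableEq (A i)] (d : I → ℕ) (rh : ℕ)
    (B : Type) [Fintype B] [DecidableEq B] (R : B → ℕ) {N : ℕ}
    (lam : ∀ b, Fin (R b + 1) → ℤ) (Nw : Fin N → ℕ) (ew : Fin N → Zx R → ℤ) (M : ℕ) where
  on : I → Bool
  f : ∀ i, F i
  h : ∀ i, Fin rh → F i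
  fd : ∀ i, FD p false (on i) (F i) (A i) (J i) (d i) rh M (f i) (h i)
  φ : B → I
  z : ∀ b, Fin (R b + 1) → K
  z0 : ∀ b i, z b i ≠ 0
  zs : ∀ b, ∑ i, z b i = 0
  lamp : ∀ b i, ¬ (p : ℤ) ∣ lam b i
  lams : ∀ b, ∑ i, lam b i = 0
  lamM : ∀ b i, |lam b i| ≤ M
  ic : B → Fin rh
  eqc : ∀ b, mon (z b) (lam b) = algebraMap (F (φ b)) K (h (φ b) (ic b))
  dn : B → Bool
  idl : B → Fin rh
  eqd : ∀ b, mon (z b) (lam b) = (∏ i, (lam b i : K) ^ lam b i) *
    (1 + cond (dn b) (algebraMap (F (φ b)) K (h (φ b) (idl b))) 0)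
  w : Fin N → K
  w0 : ∀ c, w c ≠ 0
  Nw0 : ∀ c, ¬ p ∣ Nw c
  iw : Fin N → Fin rh
  KM : ∀ c, w c ^ Nw c = (∏ i, algebraMap (F i) K (h i (iw c))) *
    mon (fun s : Zx R => z s.1 s.2) (ew c)
  eM : ∀ c i, |ew c i| ≤ M
  eS : ∀ c b, ∑ i, ew c ⟨b, i⟩ = 0
  sne : ∀ b, ∃ i : Fin (R b), (lam b 0 : K) * z b i.succ - lam b i.succ * z b 0 ≠ 0
  gen : ∀ R' : Subring K, (∀ x ∈ R', x ≠ 0 → x⁻¹ ∈ R') →
    (∀ i (w : F i), algebraMap (F i) K w ∈ R') →
    (∀ b i j, z b i / z b j ∈ R') → (∀ c, w c ∈ R') → R' = ⊤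

section Sigma

variable {K : Type} [Field K] {I : Type} [Fintype I] [DecidableEq I] {A : I → Type}
  [∀ i, Fintype (A i)]

theorem mon_sig (t : ∀ i, A i → K) (e : ∀ i, A i → ℤ) :
    mon (fun s : Σ i, A i => t s.1 s.2) (fun s => e s.1 s.2) = ∏ i, mon (t i) (e i) := by
  rw [mon, Fintype.prod_sigma]
  rfl

theorem mon_sig_one (t : ∀ i, A i → K) (e : ∀ i, A i → ℤ) (i : I) :
    mon (fun s : Σ i, A i => t s.1 s.2) (fun s => if s.1 = i then e s.1 s.2 else 0) =
      mon (t i) (e i) := by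
  have h1 := mon_sig t (fun j a => if j = i then e j a else 0)
  refine h1.trans ?_
  rw [Finset.prod_eq_single i]
  · congr 1
    funext a
    rw [if_pos rfl]
  · intro j _ hj
    rw [mon]
    exact Finset.prod_eq_one fun a _ => by rw [if_neg hj, zpow_zero]
  · intro h; exact absurd (Finset.mem_univ _) h

end Sigma

/-- The variables of a factor. -/
def em {I : Type} {n d : I → ℕ} (i : I) :
    Va (n i) (d i) → (Σ i, Fin (n i)) ⊕ (Σ i, Fin (d i)) :=
  Sum.elim (fun a => Sum.inl ⟨i, a⟩) fun c => Sum.inr ⟨i, c⟩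

theorem em_inj {I : Type} {n d : I → ℕ} (i : I) : Function.Injective (em (n := n) (d := d) i) := by
  rintro (a | c) (a' | c') h
  · have h1 := Sum.inl_injective h
    simpa using h1
  · exact absurd h Sum.inl_ne_inr
  · exact absurd h Sum.inr_ne_inl
  · have h1 := Sum.inr_injective h
    simpa using h1

/-- Nondegeneracy of a product. -/
theorem ndg_prod {p : ℕ} {I : Type} [Fintype I] [DecidableEq I] {n d : I → ℕ}
    (G : ∀ i, Fin (n i) → MvPolynomial (Va (n i) (d i)) (ZMod p))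
    (D : ∀ i, MvPolynomial (Va (n i) (d i)) (ZMod p)) (h : ∀ i, S.Ndg (G i) (D i)) :
    Ndg (Nn := Σ i, Fin (n i)) (Dd := Σ i, Fin (d i)) (fun s => rename (em s.1) (G s.1 s.2))
      (fun i => rename (em i) (D i)) := by
  classical
  intro κ _ _ x hx a ha
  rintro ⟨i, k⟩
  refine h i κ (x ∘ em i) (by rw [← aeval_rename]; exact hx i) (fun k => a ⟨i, k⟩) (fun j => ?_) k
  have h1 := ha ⟨i, j⟩
  rw [Fintype.sum_sigma, Finset.sum_eq_single i] at h1
  · refine Eq.trans (Finset.sum_congr rfl fun k _ => ?_) h1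
    have h2 : pderiv (Sum.inl ⟨i, j⟩) (rename (em i) (G i k)) =
        rename (em (n := n) (d := d) i) (pderiv (Sum.inl j) (G i k)) :=
      pderiv_rename (em_inj i) (Sum.inl j) (G i k)
    rw [h2, aeval_rename]
  · intro i' _ hi
    refine Finset.sum_eq_zero fun k _ => ?_
    have h2 : pderiv (Sum.inl ⟨i, j⟩) (rename (em (n := n) (d := d) i') (G i' k)) = 0 := by
      apply pderiv_eq_zero_of_notMem_vars
      intro h3
      obtain ⟨v, -, hv⟩ := Finset.mem_image.mp (vars_rename (em (n := n) (d := d) i') (G i' k) h3)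
      rcases v with v | v
      · exact hi (congrArg Sigma.fst (Sum.inl_injective hv))
      · exact Sum.inr_ne_inl hv
    rw [h2, map_zero, mul_zero]
  · intro h; exact absurd (Finset.mem_univ _) h

variable {p : ℕ} [Fact p.Prime] {K : Type} [Field K] [Algebra (ZMod p) K]
  {I : Type} [Fintype I] [DecidableEq I] {F : I → Type} [∀ i, Field (F i)]
  [∀ i, Algebra (ZMod p) (F i)] [∀ i, Algebra (F i) K]
  [∀ i, IsScalarTower (ZMod p) (F i) K] {A J : I → Type} [∀ i, Fintype (A i)]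
  [∀ i, DecidableEq (A i)] {d : I → ℕ} {rh : ℕ} {B : Type} [Fintype B] [DecidableEq B]
  {R : B → ℕ} {N : ℕ} {lam : ∀ b, Fin (R b + 1) → ℤ} {Nw : Fin N → ℕ}
  {ew : Fin N → Zx R → ℤ} {M : ℕ}

namespace GD

/-- The forms which measure the distance to the critical point. -/
def sf (G : GD p K I F A J d rh B R lam Nw ew M) (b : B) (i : Fin (R b)) : K :=
  (lam b 0 : K) * G.z b i.succ - lam b i.succ * G.z b 0

/-- The local choices at a valuation. -/
structure Lc (G : GD p K I F A J d rh B R lam Nw ew M) (V : ValuationSubring K) where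
  fl : ∀ i, FL p false (G.on i) (d i) rh M (G.f i) (G.h i) (G.fd i).c (G.fd i).q (G.fd i).T
    (G.fd i).S (WV V (F i))
  m : ∀ b, Fin (R b + 1)
  maxz : ∀ b i, V.valuation (G.z b i) ≤ V.valuation (G.z b (m b))
  i0 : ∀ b, Fin (R b)
  maxs : ∀ b i, V.valuation (G.sf b i) ≤ V.valuation (G.sf b (i0 b))
  s0 : ∀ b, G.sf b (i0 b) ≠ 0

variable (G : GD p K I F A J d rh B R lam Nw ew M) {V : ValuationSubring K}

/-- The values of the variables of the factors. -/
noncomputable def yy (D : G.Lc V) :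
    (Σ i, Fin (D.fl i).n) ⊕ (Σ i, Fin (d i)) → K :=
  Sum.elim (fun s => algebraMap (F s.1) K ((D.fl s.1).y (Sum.inl s.2)))
    fun s => algebraMap (F s.1) K ((D.fl s.1).y (Sum.inr s.2))

theorem yy_em (D : G.Lc V) (i : I) (s : Va (D.fl i).n (d i)) :
    G.yy D (em (n := fun i => (D.fl i).n) i s) = algebraMap (F i) K ((D.fl i).y s) := by
  rcases s with a | c
  · rfl
  · rfl

theorem aeval_yy (D : G.Lc V) (i : I) (P : MvPolynomial (Va (D.fl i).n (d i)) (ZMod p)) :
    aeval (G.yy D) (rename (em (n := fun i => (D.fl i).n) i) P) =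
      algebraMap (F i) K (aeval (D.fl i).y P) := by
  rw [aeval_rename, ← aeval_am]
  congr 1
  congr 1
  funext s
  exact G.yy_em D i s

/-- The local data. -/
noncomputable def toLD (G : GD p K I F A J d rh B R lam Nw ew M) {V : ValuationSubring K}
    (D : G.Lc V) : LD p V (Σ i, A i) I (Σ i, Fin (d i)) (Σ i, Fin (D.fl i).n) B R lam Nw ew M where
  y := G.yy D
  G := fun s => rename (em (n := fun i => (D.fl i).n) s.1) ((D.fl s.1).G s.2)
  D := fun i => rename (em (n := fun i => (D.fl i).n) i) (D.fl i).D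
  l := fun s => ((D.fl s.1).l s.2).map (Sigma.mk s.1)
  t := fun s => algebraMap (F s.1) K ((D.fl s.1).t s.2)
  vy := by
    rintro (⟨i, a⟩ | ⟨i, c⟩)
    · exact wv_le_one.mp ((D.fl i).loc.le _ ((D.fl i).yR (Sum.inl a)))
    · exact wv_le_one.mp ((D.fl i).loc.le _ ((D.fl i).yR (Sum.inr c)))
  rel := fun j => by rw [G.aeval_yy, (D.fl _).rel, map_zero]
  vD := fun i => by rw [G.aeval_yy]; exact wv_eq_one.mp (D.fl i).vD
  ndg := ndg_prod (n := fun i => (D.fl i).n) (fun i => (D.fl i).G) (fun i => (D.fl i).D)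
    fun i => (D.fl i).ndg
  l0 := by
    rintro ⟨i, a⟩ h
    have h1 : (D.fl i).l a = none := by simpa using h
    show algebraMap (F i) K ((D.fl i).t a) = 1
    rw [(D.fl i).l0 a h1, map_one]
  l1 := by
    rintro ⟨i, a⟩ ⟨j, x⟩ h
    obtain ⟨x', h1, h2⟩ := Option.map_eq_some_iff.mp h
    obtain ⟨h3, h4, h5⟩ := (D.fl i).l1 a x' h1
    refine ⟨wv_lt_one.mp h3, (map_ne_zero _).mpr h4, ?_⟩
    rw [← h2]
    show algebraMap (F i) K ((D.fl i).y (Sum.inr x')) = algebraMap (F i) K ((D.fl i).t a)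
    rw [h5]
  linj := by
    rintro ⟨i, a⟩ ⟨i', a'⟩ ⟨j, x⟩ h h'
    obtain ⟨x1, h1, h2⟩ := Option.map_eq_some_iff.mp h
    obtain ⟨x2, h3, h4⟩ := Option.map_eq_some_iff.mp h'
    have h5 : i = i' := congrArg Sigma.fst (h2.trans h4.symm)
    subst h5
    have h6 : x1 = x2 := by
      have := h2.trans h4.symm
      simpa using this
    subst h6
    rw [(D.fl i).linj a a' x1 h1 h3]
  lamp := G.lamp
  lams := G.lams
  lamM := G.lamM
  ζ := fun b i => G.z b i / G.z b (D.m b)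
  ζ0 := fun b i => div_ne_zero (G.z0 b i) (G.z0 _ _)
  vζ := fun b i => by
    rw [map_div₀]
    exact div_le_one_of_le₀ (D.maxz b i) zero_le
  m := D.m
  ζm := fun b => div_self (G.z0 _ _)
  ζs := fun b => by rw [← Finset.sum_div, G.zs, zero_div]
  qc := fun b => em (n := fun i => (D.fl i).n) (G.φ b) ((D.fl (G.φ b)).qv (G.ic b))
  κc := fun b s => if s.1 = G.φ b then (D.fl s.1).κ (G.ic b) s.2 else 0
  vqc := fun b => by rw [G.yy_em]; exact wv_eq_one.mp ((D.fl _).vq _)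
  κcM := fun b s => by
    split_ifs
    · exact (D.fl _).κM _ _
    · exact Z.abs_zero_le
  eqc := fun b => by
    rw [mon_div _ _ _ (G.z0 _ _) (G.lams b), G.eqc, G.yy_em,
      mon_sig_one (fun i a => algebraMap (F i) K ((D.fl i).t a)) (fun i => (D.fl i).κ (G.ic b)),
      mon_map, ← map_mul, ← (D.fl _).eqh]
  σ := fun b => G.sf b (D.i0 b) / G.z b (D.m b)
  σ0 := fun b => div_ne_zero (D.s0 b) (G.z0 _ _)
  i0 := D.i0
  η := fun b i => G.sf b i / G.sf b (D.i0 b)
  ηi0 := fun b => div_self (D.s0 b)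
  vη := fun b i => by
    rw [map_div₀]
    exact div_le_one_of_le₀ (D.maxs b i) zero_le
  eqη := fun b i => by
    have h1 := D.s0 b
    have h2 := G.z0 b (D.m b)
    have h3 : (lam b 0 : K) * G.z b i.succ - lam b i.succ * G.z b 0 = G.sf b i := rfl
    field_simp
    exact h3
  dn := G.dn
  qd := fun b => em (n := fun i => (D.fl i).n) (G.φ b) ((D.fl (G.φ b)).qv (G.idl b))
  κd := fun b s => if s.1 = G.φ b then (D.fl s.1).κ (G.idl b) s.2 else 0
  vqd := fun b => by rw [G.yy_em]; exact wv_eq_one.mp ((D.fl _).vq _)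
  κdM := fun b s => by
    split_ifs
    · exact (D.fl _).κM _ _
    · exact Z.abs_zero_le
  eqd := fun b => by
    rw [mon_div _ _ _ (G.z0 _ _) (G.lams b), G.eqd, G.yy_em,
      mon_sig_one (fun i a => algebraMap (F i) K ((D.fl i).t a)) (fun i => (D.fl i).κ (G.idl b)),
      mon_map, ← map_mul, ← (D.fl _).eqh]
  w := G.w
  w0 := G.w0
  Nw0 := G.Nw0
  pw := fun c => ∏ i, X (em (n := fun i => (D.fl i).n) i ((D.fl i).qv (G.iw c)))
  κw := fun c s => (D.fl s.1).κ (G.iw c) s.2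
  vpw := fun c => by
    rw [map_prod, map_prod]
    refine Finset.prod_eq_one fun i _ => ?_
    rw [aeval_X, G.yy_em]
    exact wv_eq_one.mp ((D.fl _).vq _)
  κwM := fun c s => (D.fl _).κM _ _
  KM := fun c => by
    have h1 : mon (fun s : Zx R => G.z s.1 s.2 / G.z s.1 (D.m s.1)) (ew c) =
        mon (fun s : Zx R => G.z s.1 s.2) (ew c) := by
      have h2 := mon_sig (fun b i => G.z b i / G.z b (D.m b)) (fun b i => ew c ⟨b, i⟩)
      have h3 := mon_sig (fun b i => G.z b i) (fun b i => ew c ⟨b, i⟩)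
      refine h2.trans (Eq.trans ?_ h3.symm)
      exact Finset.prod_congr rfl fun b _ => mon_div _ _ _ (G.z0 _ _) (G.eS c b)
    rw [h1, G.KM, map_prod, mon_sig (fun i a => algebraMap (F i) K ((D.fl i).t a))
      (fun i => (D.fl i).κ (G.iw c)), ← Finset.prod_mul_distrib]
    congr 1
    refine Finset.prod_congr rfl fun i _ => ?_
    rw [aeval_X, G.yy_em, mon_map, ← map_mul, ← (D.fl _).eqh]
  eM := G.eM

end GD

end Pool.Agent.H96.ZM
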