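import Pool.Agent.H96.ZM.LN

/-!
# The relations of a block at the critical point
-/

set_option autoImplicit false
set_option linter.unusedSectionVars false

namespace Pool.Agent.H96.ZM

open MvPolynomial IsLocalRing Pool.Agent.H96.Reg Pool.Agent.H96.VL Pool.Agent.H96.W
open Pool.Agent.H96.Z (Ls Ds c2 x2 cl xl isRegular_of_terms rel_two rel_lin Ls_two Ds_two Ls_tt
  Ds_tt Ls_G Ds_G Ls_U Ds_U Ls_V Ds_V Ls_lin Ds_lin mon_zero' cring abs_single abs_zero_le abs_fz_le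
  cS sum_cS mon_circuit exists_circuit crit)
open Pool.Agent.H96.W2 (BX mem_BX zero_mem_BX single_mem_BX single_one_mem_BX neg_mem_BX)
open Pool.Agent.H96.S (cond_t cond_f zc0 zc_ne resv_aevalp sum_single_eq sum_zero_eq)

/-- The polynomials of the second order. -/
structure Ci (p : ℕ) {R : ℕ} (lam : Fin (R + 1) → ℤ) where
  Q : MvPolynomial (Tc R) (ZMod p)
  P : MvPolynomial (Tc R) (ZMod p)
  g : ∀ (B : Type) [Field B] [Algebra (ZMod p) B] (Y : Tc R → B),
    ∑ i, Y (Sum.inr i) = 0 →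
    Y (Sum.inl ()) ^ 2 * aeval Y Q =
      ∏ i, (1 + Y (Sum.inl ()) * Y (Sum.inr i) * (lam (Fin.succ i) : B)⁻¹) ^
        (lam (Fin.succ i)).toNat -
      ∏ i, (1 + Y (Sum.inl ()) * Y (Sum.inr i) * (lam (Fin.succ i) : B)⁻¹) ^
        (-lam (Fin.succ i)).toNat ∧
    aeval Y P = ∏ i, (1 + Y (Sum.inl ()) * Y (Sum.inr i) *
      (lam (Fin.succ i) : B)⁻¹) ^ (-lam (Fin.succ i)).toNat
  s : ∀ (B : Type) [Field B] [Algebra (ZMod p) B] (Y : Tc R → B),
    Y (Sum.inl ()) = 0 → ∑ i, Y (Sum.inr i) = 0 →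
    2 * aeval Y Q = - ∑ i, Y (Sum.inr i) ^ 2 * (lam (Fin.succ i) : B)⁻¹ ∧
    (∃ E : B, ∀ i, aeval Y (pderiv (Sum.inr i) Q) =
      E - Y (Sum.inr i) * (lam (Fin.succ i) : B)⁻¹) ∧
    aeval Y P = 1 ∧ ∀ l, l ≠ Sum.inl () → aeval Y (pderiv l P) = 0

theorem exists_ci (p : ℕ) [Fact p.Prime] {R : ℕ} (lam : Fin (R + 1) → ℤ)
    (hl : ∀ i, ¬ (p : ℤ) ∣ lam i) : Nonempty (Ci p lam) := by
  obtain ⟨Q, P, h1, h2⟩ := exists_circuit (p := p) (fun i : Fin R => lam i.succ)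
    (fun i => hl i.succ) (Sum.inl () : Tc R)
    (fun i => Sum.inr i) (fun i j h => Sum.inr_injective h)
    fun i h => Sum.inr_ne_inl h
  exact ⟨⟨Q, P, h1, h2⟩⟩

variable {p : ℕ} [Fact p.Prime] {K : Type} [Field K] [Algebra (ZMod p) K]
  {V : ValuationSubring K} {A I Dd Nn B : Type} [Fintype A] [DecidableEq A] [Fintype Nn]
  [DecidableEq Nn] [Fintype Dd] [DecidableEq Dd] [Fintype B] [DecidableEq B] {R : B → ℕ} {N : ℕ}
  {lam : ∀ b, Fin (R b + 1) → ℤ} {Nw : Fin N → ℕ} {ew : Fin N → Zx R → ℤ} {M M' : ℕ}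
  {L : LD p V A I Dd Nn B R lam Nw ew M}

/-- The variables of a block. -/
def emb (Nn Dd : Type) {B : Type} {R : B → ℕ} (b : B) : Tc (R b) → (Nn ⊕ Dd) ⊕ Θx R :=
  fun θ => Sum.inr ⟨b, θ⟩

theorem emb_inj (b : B) : Function.Injective (emb Nn Dd (R := R) b) := by
  intro θ θ' h
  have h1 := Sum.inr_injective h
  simpa using h1

/-- The values of the variables at the critical point. -/
def LD.YC (L : LD p V A I Dd Nn B R lam Nw ew M) (b : B) : Tc (R b) → K :=
  Sum.elim (fun _ => L.σ b / L.ζ b 0) (L.η b)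

section Facts

theorem vlam [Algebra (ZMod p) (ResidueField V)] {x : ℤ} (hx : ¬ (p : ℤ) ∣ x) :
    V.valuation (x : K) = 1 := by
  rw [← resv_ne_zero_iff (LD.vint x), resv_intCast]
  exact zc_ne V hx

theorem lam_ne [Algebra (ZMod p) (ResidueField V)] {x : ℤ} (hx : ¬ (p : ℤ) ∣ x) :
    (x : K) ≠ 0 := by
  intro h
  have h1 := vlam (V := V) hx
  rw [h, map_zero] at h1
  exact zero_ne_one h1

variable (L) [Algebra (ZMod p) (ResidueField V)] (b : B)

/-- The residues of the forms are proportional to the exponents. -/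
theorem resv_forms (hσ : V.valuation (L.σ b) < 1) (i : Fin (R b)) :
    (lam b 0 : ResidueField V) * resv V (L.ζ b i.succ) = lam b i.succ * resv V (L.ζ b 0) := by
  have h4 := (resv_aevalp V (L.ζ b) (L.vζ b) (MvPolynomial.C (lam b 0 : ZMod p) * X i.succ -
    MvPolynomial.C (lam b i.succ : ZMod p) * X 0)).2
  rw [map_sub, map_mul, map_mul, map_sub, map_mul, map_mul, aeval_C, aeval_C, aeval_X,
    aeval_X, aeval_C, aeval_C, aeval_X, aeval_X, map_intCast, map_intCast, map_intCast,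
    map_intCast, L.eqη] at h4
  have h5 : V.valuation (L.σ b * L.η b i) < 1 := by
    rw [map_mul]
    exact mul_lt_one_of_lt_of_le hσ (L.vη b i)
  rw [(resv_eq_zero_iff h5.le).mpr h5] at h4
  exact (sub_eq_zero.mp h4.symm)

theorem vζ_zero (hσ : V.valuation (L.σ b) < 1) : V.valuation (L.ζ b 0) = 1 := by
  rw [← resv_ne_zero_iff (L.vζ b 0)]
  intro h0
  have h1 : ∀ i : Fin (R b + 1), resv V (L.ζ b i) = 0 := by
    intro i
    refine Fin.cases h0 (fun i => ?_) i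
    have h2 := resv_forms L b hσ i
    rw [h0, mul_zero] at h2
    exact (mul_eq_zero.mp h2).resolve_left (zc_ne V (L.lamp b 0))
  have h2 := h1 (L.m b)
  rw [L.ζm, resv_one] at h2
  exact one_ne_zero h2

theorem vζ_one (hσ : V.valuation (L.σ b) < 1) (i : Fin (R b + 1)) :
    V.valuation (L.ζ b i) = 1 := by
  have h0 := vζ_zero L b hσ
  refine Fin.cases h0 (fun i => ?_) i
  rw [← resv_ne_zero_iff (L.vζ _ _)] at h0 ⊢
  intro h1
  have h2 := resv_forms L b hσ i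
  rw [h1, mul_zero] at h2
  rcases mul_eq_zero.mp h2.symm with h3 | h3
  · exact zc_ne V (L.lamp _ _) h3
  · exact h0 h3

theorem vω (hσ : V.valuation (L.σ b) < 1) : V.valuation (L.σ b / L.ζ b 0) < 1 := by
  rw [map_div₀, vζ_zero L b hσ, div_one]
  exact hσ

theorem vYC (hσ : V.valuation (L.σ b) < 1) (θ : Tc (R b)) : V.valuation (L.YC b θ) ≤ 1 := by
  rcases θ with θ | i
  · exact (vω L b hσ).le
  · exact L.vη b i

theorem eq_form (i : Fin (R b)) : (lam b 0 : K) * L.ζ b i.succ =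
    L.ζ b 0 * (lam b i.succ + L.σ b / L.ζ b 0 * L.η b i) := by
  have h1 := L.eqη b i
  have h2 := L.ζ0 b 0
  field_simp
  linear_combination h1

theorem sum_η : ∑ i, L.η b i = 0 := by
  have h1 : L.σ b * ∑ i, L.η b i = 0 := by
    rw [Finset.mul_sum, ← Finset.sum_congr rfl fun i _ => L.eqη b i, Finset.sum_sub_distrib,
      ← Finset.mul_sum, ← Finset.sum_mul]
    have h2 := L.ζs b
    rw [Fin.sum_univ_succ] at h2
    have h3 : (lam b 0 : K) + ∑ i : Fin (R b), (lam b i.succ : K) = 0 := by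
      have h4 := congrArg (Int.cast : ℤ → K) (L.lams b)
      rw [Int.cast_sum, Int.cast_zero, Fin.sum_univ_succ] at h4
      exact h4
    linear_combination (lam b 0 : K) * h2 - L.ζ b 0 * h3
  exact (mul_eq_zero.mp h1).resolve_left (L.σ0 b)

/-- The relation of the second order. -/
theorem rel_second (c : Ci p (lam b)) : (L.σ b / L.ζ b 0) ^ 2 * aeval (L.YC b) c.Q =
    cond (L.dn b) (L.y (L.qd b) * mon L.t (L.κd b)) 0 * aeval (L.YC b) c.P := by
  obtain ⟨h1, h2⟩ := c.g K (L.YC b) (sum_η L b)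
  have hl : ∀ i, (lam b i : K) ≠ 0 := fun i => lam_ne (V := V) (L.lamp b i)
  have hu : ∀ i : Fin (R b), (lam b i.succ : K) *
      (1 + L.σ b / L.ζ b 0 * L.η b i * (lam b i.succ : K)⁻¹) =
      lam b i.succ + L.σ b / L.ζ b 0 * L.η b i := by
    intro i
    have h3 := hl i.succ
    field_simp
  have hu0 : ∀ i : Fin (R b), 1 + L.σ b / L.ζ b 0 * L.η b i * (lam b i.succ : K)⁻¹ ≠ 0 := by
    intro i h3
    have h4 := eq_form L b i
    rw [← hu, h3, mul_zero, mul_zero] at h4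
    exact mul_ne_zero (hl 0) (L.ζ0 _ _) h4
  have h3 := mon_circuit (lam b) (L.ζ b)
    (fun i => 1 + L.σ b / L.ζ b 0 * L.η b i * (lam b i.succ : K)⁻¹) hl
    (L.ζ0 b 0) hu0 (L.lams b) fun i => by rw [hu]; exact eq_form L b i
  rw [L.eqd] at h3
  have hc0 : (∏ i, (lam b i : K) ^ lam b i) ≠ 0 :=
    Finset.prod_ne_zero_iff.mpr fun i _ => zpow_ne_zero _ (hl i)
  rw [mul_assoc] at h3
  have h4 := mul_left_cancel₀ hc0 h3
  refine h1.trans ?_
  rw [h2]
  show (∏ i : Fin (R b), (1 + L.σ b / L.ζ b 0 * L.η b i * (lam b i.succ : K)⁻¹) ^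
      (lam b i.succ).toNat) -
    ∏ i : Fin (R b), (1 + L.σ b / L.ζ b 0 * L.η b i * (lam b i.succ : K)⁻¹) ^
      (-lam b i.succ).toNat = _ *
      ∏ i : Fin (R b), (1 + L.σ b / L.ζ b 0 * L.η b i * (lam b i.succ : K)⁻¹) ^
        (-lam b i.succ).toNat
  rw [← h4]
  ring

/-- The point of the residue field. -/
noncomputable abbrev LD.yr : Tc (R b) → ResidueField V := fun θ => resv V (L.YC b θ)

theorem yr_ω (hσ : V.valuation (L.σ b) < 1) : L.yr b (Sum.inl ()) = 0 :=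
  (resv_eq_zero_iff (vω L b hσ).le).mpr (vω L b hσ)

theorem yr_sum : ∑ i, L.yr b (Sum.inr i) = 0 := by
  have h4 := (resv_aevalp V (L.η b) (L.vη b) (∑ i, X i : MvPolynomial (Fin (R b)) (ZMod p))).2
  rw [map_sum, map_sum] at h4
  simp only [aeval_X] at h4
  rw [sum_η L, resv_zero] at h4
  exact h4.symm

theorem yr_i0 : L.yr b (Sum.inr (L.i0 b)) = 1 := by
  show resv V (L.η b (L.i0 b)) = 1
  rw [L.ηi0, resv_one]

theorem lam_res (L : LD p V A I Dd Nn B R lam Nw ew M) (b : B) (i : Fin (R b + 1)) :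
    (lam b i : ResidueField V) ≠ 0 := zc_ne V (L.lamp b i)

theorem lams_res (L : LD p V A I Dd Nn B R lam Nw ew M) (b : B) :
    ∑ i, (lam b i : ResidueField V) = 0 := by
  rw [← Int.cast_sum, L.lams, Int.cast_zero]

theorem Q_ne (hσ : V.valuation (L.σ b) < 1) (c : Ci p (lam b)) : c.Q ≠ 0 := by
  intro h
  obtain ⟨-, ⟨E, hE⟩, -, -⟩ := c.s _ (L.yr b) (yr_ω L b hσ) (yr_sum L b)
  rw [h] at hE
  have h2 := (c.s _ (L.yr b) (yr_ω L b hσ) (yr_sum L b)).1
  rw [h, map_zero, mul_zero] at h2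
  have h1 := crit (lam b) (lam_res L b) (lams_res L b) (L.i0 b) (fun i => L.yr b (Sum.inr i))
    (yr_sum L b) (yr_i0 L b) 0 0 1 E (by
      rw [one_mul]
      exact neg_eq_zero.mp h2.symm) (fun i => by
      have h3 := hE i
      rw [map_zero, map_zero] at h3
      rw [zero_mul, add_zero, one_mul, zero_add, h3])
  exact one_ne_zero h1.2.2

theorem vP (hσ : V.valuation (L.σ b) < 1) (c : Ci p (lam b)) :
    V.valuation (aeval (L.YC b) c.P) = 1 := by
  have h1 := resv_aevalp V (L.YC b) (vYC L b hσ) c.P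
  rw [← resv_ne_zero_iff h1.1, h1.2, (c.s _ (L.yr b) (yr_ω L b hσ) (yr_sum L b)).2.2.1]
  exact one_ne_zero

end Facts

section Defs

variable (L) (b : B) (c : Ci p (lam b))

/-- The coefficients of the relations of the block. -/
noncomputable def LD.kc : Sc (R b) → Tx R → L.Po :=
  Sum.elim (fun _ => c2 _ 1 (-1))
    (Sum.elim (fun i => c2 _ (MvPolynomial.C (lam b 0 : ZMod p))
      (-(MvPolynomial.C (lam b (Fin.succ i) : ZMod p) +
        X (Sum.inr ⟨b, Sum.inl ()⟩) * X (Sum.inr ⟨b, Sum.inr i⟩))))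
      (Sum.elim (fun _ => c2 _ 1 (-X (Sum.inr ⟨b, Sum.inl ()⟩)))
        (Sum.elim (fun _ => c2 _ (∑ i, X (Sum.inr ⟨b, Sum.inr i⟩)) 0)
          (Sum.elim (fun _ => c2 _ (X (Sum.inr ⟨b, Sum.inr (L.i0 b)⟩) - 1) 0)
            fun _ => c2 _ (rename (emb Nn Dd b) c.Q)
              (cond (L.dn b) (-(X (Sum.inl (L.qd b)) * rename (emb Nn Dd b) c.P)) 0)))))

/-- The exponents of the relations of the block. -/
def LD.kx : Sc (R b) → Tx R → Ix A R N → ℤ :=
  Sum.elim (fun _ => x2 _ (gz A R N ⟨b, L.m b⟩) 0)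
    (Sum.elim (fun i => x2 _ (gz A R N ⟨b, i.succ⟩) (gz A R N ⟨b, 0⟩))
      (Sum.elim (fun _ => x2 _ (EV 0 (Pi.single ⟨b, 0⟩ (-1)) (Pi.single b 1) 0) 0)
        (Sum.elim (fun _ => x2 _ 0 0)
          (Sum.elim (fun _ => x2 _ 0 0)
            fun _ => x2 _ (EV 0 (Pi.single ⟨b, 0⟩ (-2)) (Pi.single b 2) 0)
              (EV (L.κd b) 0 0 0)))))

/-- The leading terms of the relations of the block. -/
def ks (R : B → ℕ) (b : B) : Sc (R b) → Tx R :=
  Sum.elim (fun _ => Sum.inr true) (Sum.elim (fun _ => Sum.inr true)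
    (Sum.elim (fun _ => Sum.inr false) fun _ => Sum.inr true))

end Defs

theorem pderiv_emb {b b' : B} (hb : b' ≠ b) (P : MvPolynomial (Tc (R b)) (ZMod p))
    (θ : Tc (R b')) :
    pderiv (Sum.inr ⟨b', θ⟩) (rename (emb Nn Dd (R := R) b) P) = 0 := by
  classical
  apply pderiv_eq_zero_of_notMem_vars
  intro h
  have h2 := vars_rename (emb Nn Dd (R := R) b) P h
  obtain ⟨x, -, hx⟩ := Finset.mem_image.mp h2
  exact hb (congrArg Sigma.fst (Sum.inr_injective hx)).symm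

/-- The values at the variables of the block. -/
theorem comp_emb {b : B} {Y : Θx R → K} (hY : ∀ θ, Y ⟨b, θ⟩ = L.YC b θ) :
    (Sum.elim L.y Y) ∘ emb Nn Dd b = L.YC b := funext fun θ => hY θ

end Pool.Agent.H96.ZM
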