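import Pool.Agent.H96.ZM.LC

/-!
# The relations of a block at the critical point are suitable
-/

set_option autoImplicit false
set_option linter.unusedSectionVars false

namespace Pool.Agent.H96.ZM

open MvPolynomial IsLocalRing Pool.Agent.H96.Reg Pool.Agent.H96.VL Pool.Agent.H96.W
open Pool.Agent.H96.Z (Ls Ds c2 x2 cl xl isRegular_of_terms rel_two rel_lin Ls_two Ds_two Ls_tt
  Ds_tt Ls_G Ds_G Ls_U Ds_U Ls_V Ds_V Ls_lin Ds_lin mon_zero' cring abs_single abs_zero_le abs_fz_le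
  cS sum_cS mon_circuit exists_circuit crit)
open Pool.Agent.H96.W2 (BX mem_BX zero_mem_BX single_mem_BX single_one_mem_BX neg_mem_BX)
open Pool.Agent.H96.S (cond_t cond_f zc0 zc_ne resv_aevalp sum_single_eq sum_zero_eq)

variable {p : ℕ} [Fact p.Prime] {K : Type} [Field K] [Algebra (ZMod p) K]
  {V : ValuationSubring K} {A I Dd Nn B : Type} [Fintype A] [DecidableEq A] [Fintype Nn]
  [DecidableEq Nn] [Fintype Dd] [DecidableEq Dd] [Fintype B] [DecidableEq B] {R : B → ℕ} {N : ℕ}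
  {lam : ∀ b, Fin (R b + 1) → ℤ} {Nw : Fin N → ℕ} {ew : Fin N → Zx R → ℤ} {M M' : ℕ}
  {L : LD p V A I Dd Nn B R lam Nw ew M}

/-- **The relations of a block at the critical point.** -/
theorem bokC [Algebra (ZMod p) (ResidueField V)] {C : Cone (Ix A R N)}
    (h : Cx L M' C) {Y : Θx R → K} (b : B) (c : Ci p (lam b)) (hσ : V.valuation (L.σ b) < 1)
    (hY : ∀ θ, Y ⟨b, θ⟩ = L.YC b θ) : Bok L Y M' b (L.kc b c) (L.kx b) (ks R b) := by
  classical
  obtain ⟨hQ2, ⟨E, hE⟩, hP1, hPd⟩ := c.s _ (L.yr b) (yr_ω L b hσ) (yr_sum L b)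
  have hL1 : |(1 : ℤ)| ≤ (M' : ℤ) := by
    rw [abs_one]
    exact_mod_cast (show 1 ≤ M' from (by decide : 1 ≤ 2).trans h.h2)
  have hL1' : |(-1 : ℤ)| ≤ (M' : ℤ) := by rwa [abs_neg]
  have hL2 : |(2 : ℤ)| ≤ (M' : ℤ) := by
    rw [show |(2 : ℤ)| = ((2 : ℕ) : ℤ) from rfl]
    exact_mod_cast h.h2
  have hL2' : |(-2 : ℤ)| ≤ (M' : ℤ) := by rwa [abs_neg]
  have h3 : ∀ x : ℤ, |x| ≤ M → |x| ≤ M' := fun x hx => hx.trans (by exact_mod_cast h.hM)
  have hrr : (fun l => resv V (Sum.elim L.y Y l)) ∘ emb Nn Dd b = L.yr b :=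
    funext fun θ => congrArg (resv V) (hY θ)
  have hev : ∀ P : MvPolynomial (Tc (R b)) (ZMod p),
      aeval (fun l => resv V (Sum.elim L.y Y l)) (rename (emb Nn Dd b) P) = aeval (L.yr b) P := by
    intro P
    rw [aeval_rename, hrr]
  have hω : resv V (Sum.elim L.y Y (Sum.inr ⟨b, Sum.inl ()⟩)) = 0 := by
    rw [Sum.elim_inr, hY]
    exact yr_ω L b hσ
  -- the differentials
  have hT : ∀ α, Ls V L.τ (Sum.elim L.y Y) (L.kc b c (Sum.inl ())) (L.kx b (Sum.inl ()))
      (ks R b (Sum.inl ())) α = ((gz A R N ⟨b, L.m b⟩ α : ℤ) : ResidueField V) := fun α => Ls_TT b α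
  have hT' : ∀ l, Ds V L.τ (Sum.elim L.y Y) (L.kc b c (Sum.inl ())) (L.kx b (Sum.inl ()))
      (ks R b (Sum.inl ())) l = 0 := fun l => Ds_U L.τ_ne_zero l
  have hZ : ∀ i α, Ls V L.τ (Sum.elim L.y Y) (L.kc b c (Sum.inr (Sum.inl i)))
      (L.kx b (Sum.inr (Sum.inl i))) (ks R b (Sum.inr (Sum.inl i))) α =
      (lam b 0 : ResidueField V) * ((gz A R N ⟨b, i.succ⟩ α : ℤ) : ResidueField V) +
        (-(lam b i.succ : ResidueField V)) * resv V (L.ζ b 0 / L.ζ b i.succ) *
          ((gz A R N ⟨b, 0⟩ α : ℤ) : ResidueField V) := by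
    intro i α
    refine (Ls_tt L.τ_ne_zero _ _ _ _ α).trans ?_
    rw [aeval_C, map_intCast, map_neg, map_add, aeval_C, map_intCast, map_mul, aeval_X,
      hω, zero_mul, add_zero, mon_gz, mon_gz]
  have hZ' : ∀ i b' θ, b' ≠ b → Ds V L.τ (Sum.elim L.y Y) (L.kc b c (Sum.inr (Sum.inl i)))
      (L.kx b (Sum.inr (Sum.inl i))) (ks R b (Sum.inr (Sum.inl i))) (Sum.inr ⟨b', θ⟩) = 0 := by
    intro i b' θ hb
    refine (Ds_tt L.τ_ne_zero _ _ _ _ _).trans ?_
    rw [pderiv_C, map_zero, zero_add, map_neg, map_add, pderiv_C, Derivation.leibniz, pderiv_X,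
      pderiv_X, Pi.single_eq_of_ne (fun h => hb (congrArg Sigma.fst (Sum.inr_injective h)).symm),
      Pi.single_eq_of_ne (fun h => hb (congrArg Sigma.fst (Sum.inr_injective h)).symm),
      smul_zero, smul_zero, add_zero, add_zero, neg_zero, map_zero, zero_mul]
  have hI : ∀ α, Ls V L.τ (Sum.elim L.y Y) (L.kc b c (Sum.inr (Sum.inr (Sum.inl ()))))
      (L.kx b (Sum.inr (Sum.inr (Sum.inl ())))) (ks R b (Sum.inr (Sum.inr (Sum.inl ())))) α =
      0 := by
    intro α
    refine Ls_V ?_ _ α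
    rw [L.mon_sz, zpow_one]
    exact vω L b hσ
  have hI' : ∀ l, Ds V L.τ (Sum.elim L.y Y) (L.kc b c (Sum.inr (Sum.inr (Sum.inl ()))))
      (L.kx b (Sum.inr (Sum.inr (Sum.inl ())))) (ks R b (Sum.inr (Sum.inr (Sum.inl ())))) l =
      if l = Sum.inr ⟨b, Sum.inl ()⟩ then (-1 : ResidueField V) else 0 := fun l => Ds_V _ l
  have hΛ : ∀ α, Ls V L.τ (Sum.elim L.y Y) (L.kc b c (Sum.inr (Sum.inr (Sum.inr (Sum.inl ())))))
      (L.kx b (Sum.inr (Sum.inr (Sum.inr (Sum.inl ())))))
      (ks R b (Sum.inr (Sum.inr (Sum.inr (Sum.inl ()))))) α = 0 :=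
    fun α => Ls_G _ _ α
  have hX : ∀ α, Ls V L.τ (Sum.elim L.y Y)
      (L.kc b c (Sum.inr (Sum.inr (Sum.inr (Sum.inr (Sum.inl ()))))))
      (L.kx b (Sum.inr (Sum.inr (Sum.inr (Sum.inr (Sum.inl ()))))))
      (ks R b (Sum.inr (Sum.inr (Sum.inr (Sum.inr (Sum.inl ())))))) α = 0 :=
    fun α => Ls_G _ _ α
  have hΛ' : ∀ i, Ds V L.τ (Sum.elim L.y Y)
      (L.kc b c (Sum.inr (Sum.inr (Sum.inr (Sum.inl ())))))
      (L.kx b (Sum.inr (Sum.inr (Sum.inr (Sum.inl ())))))
      (ks R b (Sum.inr (Sum.inr (Sum.inr (Sum.inl ())))))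
      (Sum.inr ⟨b, Sum.inr i⟩) = 1 := by
    intro i
    refine (Ds_G _ _).trans ?_
    rw [map_sum, map_sum, Finset.sum_eq_single i]
    · rw [pderiv_X, Pi.single_eq_same, map_one]
    · intro j _ hj
      rw [pderiv_X, Pi.single_eq_of_ne (fun h => hj (by simpa using h)), map_zero]
    · intro h; exact absurd (Finset.mem_univ _) h
  have hΛo : ∀ b' θ, b' ≠ b → Ds V L.τ (Sum.elim L.y Y)
      (L.kc b c (Sum.inr (Sum.inr (Sum.inr (Sum.inl ())))))
      (L.kx b (Sum.inr (Sum.inr (Sum.inr (Sum.inl ())))))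
      (ks R b (Sum.inr (Sum.inr (Sum.inr (Sum.inl ())))))
      (Sum.inr ⟨b', θ⟩) = 0 := by
    intro b' θ hb
    refine (Ds_G _ _).trans ?_
    rw [map_sum, map_sum]
    refine Finset.sum_eq_zero fun i _ => ?_
    rw [pderiv_X, Pi.single_eq_of_ne
      (fun h => hb (congrArg Sigma.fst (Sum.inr_injective h)).symm), map_zero]
  have hX' : ∀ i, Ds V L.τ (Sum.elim L.y Y)
      (L.kc b c (Sum.inr (Sum.inr (Sum.inr (Sum.inr (Sum.inl ()))))))
      (L.kx b (Sum.inr (Sum.inr (Sum.inr (Sum.inr (Sum.inl ()))))))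
      (ks R b (Sum.inr (Sum.inr (Sum.inr (Sum.inr (Sum.inl ()))))))
      (Sum.inr ⟨b, Sum.inr i⟩) = if i = L.i0 b then 1 else 0 := by
    intro i
    refine (Ds_G _ _).trans ?_
    rw [map_sub, ← MvPolynomial.C_1, pderiv_C, sub_zero, pderiv_X]
    by_cases hi : i = L.i0 b
    · rw [if_pos hi, hi, Pi.single_eq_same, map_one]
    · rw [if_neg hi, Pi.single_eq_of_ne (fun h => hi (by simpa using h.symm)), map_zero]
  have hXo : ∀ b' θ, b' ≠ b → Ds V L.τ (Sum.elim L.y Y)
      (L.kc b c (Sum.inr (Sum.inr (Sum.inr (Sum.inr (Sum.inl ()))))))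
      (L.kx b (Sum.inr (Sum.inr (Sum.inr (Sum.inr (Sum.inl ()))))))
      (ks R b (Sum.inr (Sum.inr (Sum.inr (Sum.inr (Sum.inl ()))))))
      (Sum.inr ⟨b', θ⟩) = 0 := by
    intro b' θ hb
    refine (Ds_G _ _).trans ?_
    rw [map_sub, ← MvPolynomial.C_1, pderiv_C, sub_zero, pderiv_X, Pi.single_eq_of_ne
      (fun h => hb (congrArg Sigma.fst (Sum.inr_injective h)).symm), map_zero]
  have hJ : ∀ α, Ls V L.τ (Sum.elim L.y Y)
      (L.kc b c (Sum.inr (Sum.inr (Sum.inr (Sum.inr (Sum.inr ()))))))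
      (L.kx b (Sum.inr (Sum.inr (Sum.inr (Sum.inr (Sum.inr ()))))))
      (ks R b (Sum.inr (Sum.inr (Sum.inr (Sum.inr (Sum.inr ())))))) α =
      aeval (L.yr b) c.Q * ((EV (A := A) (R := R) (N := N) 0 (Pi.single ⟨b, 0⟩ (-2))
        (Pi.single b 2) 0 α : ℤ) : ResidueField V) +
      aeval (fun l => resv V (Sum.elim L.y Y l))
        (cond (L.dn b) (-(X (Sum.inl (L.qd b)) * rename (emb Nn Dd b) c.P)) 0) *
        resv V (mon L.τ (EV (L.κd b) 0 0 0) /
          mon L.τ (EV 0 (Pi.single ⟨b, 0⟩ (-2)) (Pi.single b 2) 0)) *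
        ((EV (L.κd b) 0 0 0 α : ℤ) : ResidueField V) := by
    intro α
    refine (Ls_tt L.τ_ne_zero _ _ _ _ α).trans ?_
    rw [hev]
  have hJ' : ∀ i, Ds V L.τ (Sum.elim L.y Y)
      (L.kc b c (Sum.inr (Sum.inr (Sum.inr (Sum.inr (Sum.inr ()))))))
      (L.kx b (Sum.inr (Sum.inr (Sum.inr (Sum.inr (Sum.inr ()))))))
      (ks R b (Sum.inr (Sum.inr (Sum.inr (Sum.inr (Sum.inr ()))))))
      (Sum.inr ⟨b, Sum.inr i⟩) =
      E - L.yr b (Sum.inr i) * (lam b i.succ : ResidueField V)⁻¹ := by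
    intro i
    refine (Ds_tt L.τ_ne_zero _ _ _ _ _).trans ?_
    have hd : ∀ P : MvPolynomial (Tc (R b)) (ZMod p),
        pderiv (Sum.inr ⟨b, Sum.inr i⟩) (rename (emb Nn Dd b) P) =
          rename (emb Nn Dd b) (pderiv (Sum.inr i) P) := fun P =>
      pderiv_rename (emb_inj b) (Sum.inr i) P
    rw [hd, hev, hE i]
    have h1 : aeval (fun l => resv V (Sum.elim L.y Y l)) (pderiv (Sum.inr ⟨b, Sum.inr i⟩)
        (cond (L.dn b) (-(X (Sum.inl (L.qd b)) * rename (emb Nn Dd b) c.P)) 0 : L.Po)) = 0 := by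
      rcases Bool.eq_false_or_eq_true (L.dn b) with h | h
      · rw [cond_t h, map_neg, Derivation.leibniz, pderiv_X,
          Pi.single_eq_of_ne (show (Sum.inl (L.qd b) : (Nn ⊕ Dd) ⊕ Θx R) ≠
            Sum.inr ⟨b, Sum.inr i⟩ from Sum.inl_ne_inr), smul_zero, add_zero, smul_eq_mul,
          map_neg, map_mul, hd, hev, hPd _ Sum.inr_ne_inl, mul_zero, neg_zero]
      · rw [cond_f h, map_zero, map_zero]
    rw [h1, zero_mul, add_zero]
  have hJo : ∀ b' θ, b' ≠ b → Ds V L.τ (Sum.elim L.y Y)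
      (L.kc b c (Sum.inr (Sum.inr (Sum.inr (Sum.inr (Sum.inr ()))))))
      (L.kx b (Sum.inr (Sum.inr (Sum.inr (Sum.inr (Sum.inr ()))))))
      (ks R b (Sum.inr (Sum.inr (Sum.inr (Sum.inr (Sum.inr ()))))))
      (Sum.inr ⟨b', θ⟩) = 0 := by
    intro b' θ hb
    refine (Ds_tt L.τ_ne_zero _ _ _ _ _).trans ?_
    have h1 : pderiv (Sum.inr ⟨b', θ⟩)
        (cond (L.dn b) (-(X (Sum.inl (L.qd b)) * rename (emb Nn Dd b) c.P)) 0 : L.Po) = 0 := by
      rcases Bool.eq_false_or_eq_true (L.dn b) with h | h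
      · rw [cond_t h, map_neg, Derivation.leibniz, pderiv_X,
          Pi.single_eq_of_ne (show (Sum.inl (L.qd b) : (Nn ⊕ Dd) ⊕ Θx R) ≠
            Sum.inr ⟨b', θ⟩ from Sum.inl_ne_inr), smul_zero, add_zero, pderiv_emb hb, smul_zero,
          neg_zero]
      · rw [cond_f h, map_zero]
    rw [pderiv_emb hb, h1, map_zero, zero_mul, add_zero]
  refine ⟨?_, ?_, ?_, ?_, ?_, ?_, ?_, ?_, ?_⟩
  · rintro (j | i | j | j | j | j) (s | _ | _)
    · exact zero_mem_BX
    · exact zero_mem_BX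
    · exact gz_mem h.h2 _
    · exact zero_mem_BX
    · exact gz_mem h.h2 _
    · exact gz_mem h.h2 _
    · exact zero_mem_BX
    · exact zero_mem_BX
    · exact EV_mem abs_fz_le (abs_single hL1' _) (abs_single hL1 _) abs_fz_le
    · exact zero_mem_BX
    · exact zero_mem_BX
    · exact zero_mem_BX
    · exact zero_mem_BX
    · exact zero_mem_BX
    · exact zero_mem_BX
    · exact zero_mem_BX
    · exact EV_mem (fun a => h3 _ (L.κdM b a)) abs_fz_le abs_fz_le abs_fz_le
    · exact EV_mem abs_fz_le (abs_single hL2' _) (abs_single hL2 _) abs_fz_le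
  · rintro (j | i | j | j | j | j)
    · refine (rel_two (y := Sum.elim L.y Y) _ _ _ _).trans ?_
      rw [mon_gz, L.ζm, mon_zero', map_neg, map_one]; ring
    · refine (rel_two (y := Sum.elim L.y Y) _ _ _ _).trans ?_
      rw [mon_gz, mon_gz, aeval_C, map_intCast, map_neg, map_add, aeval_C, map_intCast, map_mul,
        aeval_X, aeval_X, Sum.elim_inr, Sum.elim_inr, hY, hY]
      show (lam b 0 : K) * L.ζ b i.succ +
        -((lam b i.succ : K) + L.σ b / L.ζ b 0 * L.η b i) * L.ζ b 0 = 0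
      linear_combination eq_form L b i
    · refine (rel_two (y := Sum.elim L.y Y) _ _ _ _).trans ?_
      rw [L.mon_sz, zpow_one, mon_zero', map_one, map_neg, aeval_X, Sum.elim_inr, hY]
      show 1 * (L.σ b / L.ζ b 0) + -(L.σ b / L.ζ b 0) * 1 = 0
      ring
    · refine (rel_two (y := Sum.elim L.y Y) _ _ _ _).trans ?_
      rw [map_zero, zero_mul, add_zero, map_sum]
      simp only [aeval_X, Sum.elim_inr, hY]
      have h1 : ∑ i, L.YC b (Sum.inr i) = 0 := sum_η L b
      rw [h1, zero_mul]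
    · refine (rel_two (y := Sum.elim L.y Y) _ _ _ _).trans ?_
      rw [map_zero, zero_mul, add_zero, map_sub, aeval_X, map_one, Sum.elim_inr, hY]
      show (L.η b (L.i0 b) - 1) * _ = 0
      rw [L.ηi0, sub_self, zero_mul]
    · refine (rel_two (y := Sum.elim L.y Y) _ _ _ _).trans ?_
      rw [L.mon_sz, L.mon_t, aeval_rename, comp_emb hY]
      have h1 := rel_second L b c
      have h2 : (L.σ b / L.ζ b 0) ^ (2 : ℤ) = (L.σ b / L.ζ b 0) ^ 2 := zpow_natCast _ 2
      rw [h2]
      rcases Bool.eq_false_or_eq_true (L.dn b) with h | h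
      · rw [cond_t h] at h1 ⊢
        rw [map_neg, map_mul, aeval_X, Sum.elim_inl, aeval_rename, comp_emb hY]
        linear_combination h1
      · rw [cond_f h] at h1 ⊢
        rw [map_zero]
        linear_combination h1
  · rintro (j | i | j | j | j | j)
    · exact Or.inl one_ne_zero
    · left
      show MvPolynomial.C (lam b 0 : ZMod p) ≠ 0
      rw [Ne, MvPolynomial.C_eq_zero, ZMod.intCast_zmod_eq_zero_iff_dvd]
      exact L.lamp b 0
    · exact Or.inl (neg_ne_zero.mpr (X_ne_zero _))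
    · left
      show (∑ i, X (Sum.inr ⟨b, Sum.inr i⟩) : L.Po) ≠ 0
      intro h
      have h1 := congrArg (aeval (fun l => if l = (Sum.inr ⟨b, Sum.inr (L.i0 b)⟩ :
        (Nn ⊕ Dd) ⊕ Θx R) then (1 : ZMod p) else 0)) h
      rw [map_zero, map_sum] at h1
      simp only [aeval_X] at h1
      rw [Finset.sum_eq_single (L.i0 b)] at h1
      · rw [if_pos rfl] at h1
        exact one_ne_zero h1
      · intro i _ hi
        rw [if_neg (fun h => hi (by simpa using h))]
      · intro h; exact absurd (Finset.mem_univ _) h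
    · left
      show (X (Sum.inr ⟨b, Sum.inr (L.i0 b)⟩) - 1 : L.Po) ≠ 0
      intro h
      have h1 := congrArg (aeval (fun _ => (0 : ZMod p))) h
      rw [map_zero, map_sub, aeval_X, map_one, zero_sub] at h1
      exact one_ne_zero (neg_eq_zero.mp h1)
    · left
      show rename (emb Nn Dd b) c.Q ≠ 0
      rw [Ne, map_eq_zero_iff _ (rename_injective _ (emb_inj b))]
      exact Q_ne L b hσ c
  · rintro (j | i | j | j | j | j) (s | _ | _) hs
    · exact absurd rfl hs
    · show V.valuation (mon L.τ 0) ≤ V.valuation (mon L.τ (gz A R N ⟨b, L.m b⟩))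
      rw [mon_zero', mon_gz, L.ζm]
    · exact le_rfl
    · exact absurd rfl hs
    · show V.valuation (mon L.τ (gz A R N ⟨b, 0⟩)) ≤ V.valuation (mon L.τ (gz A R N ⟨b, i.succ⟩))
      rw [mon_gz, mon_gz, vζ_one L b hσ, vζ_one L b hσ]
    · exact le_rfl
    · exact absurd rfl hs
    · exact le_rfl
    · show V.valuation (mon L.τ (EV 0 (Pi.single ⟨b, 0⟩ (-1)) (Pi.single b 1) 0)) ≤
        V.valuation (mon L.τ 0)
      rw [L.mon_sz, zpow_one, mon_zero', map_one]
      exact (vω L b hσ).le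
    · exact absurd rfl hs
    · exact absurd rfl hs
    · exact le_rfl
    · exact absurd rfl hs
    · exact absurd rfl hs
    · exact le_rfl
    · exact absurd rfl hs
    · show V.valuation (mon L.τ (EV (L.κd b) 0 0 0)) ≤
        V.valuation (mon L.τ (EV 0 (Pi.single ⟨b, 0⟩ (-2)) (Pi.single b 2) 0))
      have h1 := rel_second L b c
      have h2 : L.dn b = true := by
        rcases Bool.eq_false_or_eq_true (L.dn b) with h | h
        · exact h
        · exfalso
          apply hs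
          show cond (L.dn b) _ (0 : L.Po) = 0
          rw [cond_f h]
      rw [cond_t h2] at h1
      have h3 := congrArg V.valuation h1
      rw [map_mul, map_mul, map_mul, L.vqd, one_mul, vP L b hσ c, mul_one] at h3
      have h4 : (L.σ b / L.ζ b 0) ^ (2 : ℤ) = (L.σ b / L.ζ b 0) ^ 2 := zpow_natCast _ 2
      rw [L.mon_t, L.mon_sz, h4, ← h3]
      exact mul_le_of_le_one_right' (resv_aevalp V _ (vYC L b hσ) c.Q).1
    · exact le_rfl
  · rintro (j | i | j | j | j | j) c'
    · exact (hT _).trans (zc0 V)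
    · refine (hZ _ _).trans ?_
      rw [gz, gz, EV_w, EV_w, Pi.zero_apply, Int.cast_zero, mul_zero, mul_zero, add_zero]
    · exact hI _
    · exact hΛ _
    · exact hX _
    · refine (hJ _).trans ?_
      rw [EV_w, EV_w, Pi.zero_apply, Int.cast_zero, mul_zero, mul_zero, add_zero]
  · rintro (j | i | j | j | j | j) b' i' hb
    · refine (hT _).trans ?_
      rw [gz_ne (fun h => hb (congrArg Sigma.fst h)), Int.cast_zero]
    · refine (hZ _ _).trans ?_
      rw [gz_ne (fun h => hb (congrArg Sigma.fst h)), gz_ne (fun h => hb (congrArg Sigma.fst h)),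
        Int.cast_zero, mul_zero, mul_zero, add_zero]
    · exact hI _
    · exact hΛ _
    · exact hX _
    · refine (hJ _).trans ?_
      rw [EV_z, EV_z, Pi.zero_apply, Pi.single_eq_of_ne (fun h => hb (congrArg Sigma.fst h)),
        Int.cast_zero, mul_zero, mul_zero, add_zero]
  · rintro (j | i | j | j | j | j) b' hb
    · exact (hT _).trans (zc0 V)
    · refine (hZ _ _).trans ?_
      rw [gz, gz, EV_s, EV_s, Pi.zero_apply, Int.cast_zero, mul_zero, mul_zero, add_zero]
    · exact hI _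
    · exact hΛ _
    · exact hX _
    · refine (hJ _).trans ?_
      rw [EV_s, EV_s, Pi.zero_apply, Pi.single_eq_of_ne hb, Int.cast_zero, mul_zero, mul_zero,
        add_zero]
  · rintro (j | i | j | j | j | j) b' θ hb
    · exact hT' _
    · exact hZ' _ _ _ hb
    · refine (hI' _).trans ?_
      rw [if_neg (fun h => hb (congrArg Sigma.fst (Sum.inr_injective h)))]
    · exact hΛo _ _ hb
    · exact hXo _ _ hb
    · exact hJo _ _ hb
  · intro a h1 h2 h3
    obtain ⟨aT, haT⟩ : ∃ f, f = a (Sum.inl ()) := ⟨_, rfl⟩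
    obtain ⟨aZ, haZ⟩ : ∃ f : Fin (R b) → ResidueField V, f = fun i => a (Sum.inr (Sum.inl i)) :=
      ⟨_, rfl⟩
    obtain ⟨aI, haI⟩ : ∃ f, f = a (Sum.inr (Sum.inr (Sum.inl ()))) := ⟨_, rfl⟩
    obtain ⟨aL, haL⟩ : ∃ f, f = a (Sum.inr (Sum.inr (Sum.inr (Sum.inl ())))) := ⟨_, rfl⟩
    obtain ⟨aX, haX⟩ : ∃ f, f = a (Sum.inr (Sum.inr (Sum.inr (Sum.inr (Sum.inl ()))))) := ⟨_, rfl⟩
    obtain ⟨aJ, haJ⟩ : ∃ f, f = a (Sum.inr (Sum.inr (Sum.inr (Sum.inr (Sum.inr ()))))) := ⟨_, rfl⟩
    -- the direction of `σ`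
    have hS : aJ * (aeval (L.yr b) c.Q * 2) = 0 := by
      rw [sum_Sc, hT, hI, hΛ, hX, hJ] at h2
      simp only [hZ] at h2
      rw [EV_s, EV_s, Pi.single_eq_same, Pi.zero_apply] at h2
      have h4 : ∀ s : Zx R, gz A R N s (Sum.inr (Sum.inr (Sum.inl b))) = 0 := fun _ => rfl
      simp only [h4, Int.cast_zero, mul_zero, add_zero, zero_add, Finset.sum_const_zero,
        Int.cast_ofNat] at h2
      rw [haJ]
      exact h2
    -- the directions of the forms
    have hzz : ∀ i, aT * (if i = L.m b then 1 else 0) +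
        ∑ j, aZ j * ((lam b 0 : ResidueField V) *
            ((gz A R N ⟨b, j.succ⟩ (Sum.inr (Sum.inl ⟨b, i⟩)) : ℤ) : ResidueField V) +
          (-(lam b j.succ : ResidueField V)) * resv V (L.ζ b 0 / L.ζ b j.succ) *
            ((gz A R N ⟨b, 0⟩ (Sum.inr (Sum.inl ⟨b, i⟩)) : ℤ) : ResidueField V)) = 0 := by
      intro i
      have h4 := h1 i
      rw [sum_Sc, hT, hI, hΛ, hX, hJ] at h4
      simp only [hZ] at h4
      rw [EV_z, EV_z, Pi.zero_apply, Int.cast_zero, mul_zero, mul_zero, mul_zero, mul_zero,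
        add_zero, zero_add, zero_add, zero_add, ← haJ] at h4
      have h5 : aJ * (aeval (L.yr b) c.Q *
          (((Pi.single ⟨b, 0⟩ (-2) : Zx R → ℤ) ⟨b, i⟩ : ℤ) : ResidueField V)) = 0 := by
        rw [Pi.single_apply]
        split_ifs
        · rw [Int.cast_neg, Int.cast_ofNat]
          linear_combination -hS
        · rw [Int.cast_zero, mul_zero, mul_zero]
      rw [h5, add_zero, ← haT] at h4
      rw [haZ]
      by_cases hi : i = L.m b
      · rw [if_pos hi]
        subst hi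
        rw [gz_self ⟨b, L.m b⟩, Int.cast_one] at h4
        exact h4
      · rw [if_neg hi]
        rw [gz_ne (s := ⟨b, L.m b⟩) (fun h => hi (by simpa using h)), Int.cast_zero] at h4
        exact h4
    have hz1 : ∀ i : Fin (R b), aT * (if i.succ = L.m b then 1 else 0) +
        aZ i * (lam b 0 : ResidueField V) = 0 := by
      intro i
      have h4 := hzz i.succ
      rw [Finset.sum_eq_single i] at h4
      · rw [gz_self, gz_ne (s := ⟨b, 0⟩) (by simp), Int.cast_one, Int.cast_zero, mul_one,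
          mul_zero, add_zero] at h4
        exact h4
      · intro j _ hj
        rw [gz_ne (s := ⟨b, j.succ⟩) (by simpa using Ne.symm hj), gz_ne (s := ⟨b, 0⟩) (by simp),
          Int.cast_zero, mul_zero, mul_zero, add_zero, mul_zero]
      · intro h; exact absurd (Finset.mem_univ _) h
    have hz0 : aT * (if 0 = L.m b then 1 else 0) +
        ∑ j, aZ j * (-(lam b j.succ : ResidueField V) *
          resv V (L.ζ b 0 / L.ζ b j.succ)) = 0 := by
      have h4 := hzz 0
      have h5 : ∀ j : Fin (R b), gz A R N ⟨b, j.succ⟩ (Sum.inr (Sum.inl ⟨b, 0⟩)) = 0 := by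
        intro j
        rw [gz_ne]
        simpa using (Fin.succ_ne_zero j).symm
      simp only [h5, gz_self, Int.cast_zero, Int.cast_one, mul_zero, mul_one, zero_add] at h4
      exact h4
    have hl0 := lam_res L b
    have hZT : (∀ i, aZ i = 0) ∧ aT = 0 := by
      rcases Fin.eq_zero_or_eq_succ (L.m b) with hm | ⟨m, hm⟩
      · have h4 : ∀ i, aZ i = 0 := by
          intro i
          have h5 := hz1 i
          rw [if_neg (by rw [hm]; exact Fin.succ_ne_zero i), mul_zero, zero_add] at h5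
          exact (mul_eq_zero.mp h5).resolve_right (hl0 0)
        refine ⟨h4, ?_⟩
        rw [if_pos hm.symm, mul_one, sum_zero_eq _ fun j => by rw [h4, zero_mul], add_zero] at hz0
        exact hz0
      · have h4 : ∀ i, i ≠ m → aZ i = 0 := by
          intro i hi
          have h5 := hz1 i
          rw [if_neg (by rw [hm]; exact fun h => hi (Fin.succ_injective _ h)), mul_zero,
            zero_add] at h5
          exact (mul_eq_zero.mp h5).resolve_right (hl0 0)
        have h5 : aZ m = 0 := by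
          rw [if_neg (by rw [hm]; exact Ne.symm (Fin.succ_ne_zero m)), mul_zero, zero_add,
            sum_single_eq _ m fun j hj => by rw [h4 j hj, zero_mul]] at hz0
          refine (mul_eq_zero.mp hz0).resolve_right (mul_ne_zero (neg_ne_zero.mpr (hl0 _)) ?_)
          have h6 : V.valuation (L.ζ b 0 / L.ζ b m.succ) = 1 := by
            rw [map_div₀, vζ_one L b hσ, vζ_one L b hσ, div_one]
          exact (resv_ne_zero_iff h6.le).mpr h6
        refine ⟨fun i => ?_, ?_⟩
        · by_cases hi : i = m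
          · rw [hi, h5]
          · exact h4 i hi
        · have h6 := hz1 m
          rw [if_pos hm.symm, h5, zero_mul, add_zero, mul_one] at h6
          exact h6
    obtain ⟨hZ0, hT0⟩ := hZT
    have hZ0' : ∀ j, a (Sum.inr (Sum.inl j)) = 0 := fun j => by
      have := hZ0 j
      rwa [haZ] at this
    -- the directions of the `y`
    have hy : ∀ i, aL + aX * (if i = L.i0 b then 1 else 0) +
        aJ * (E - L.yr b (Sum.inr i) * (lam b i.succ : ResidueField V)⁻¹) = 0 := by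
      intro i
      have h4 := h3 (Sum.inr i)
      rw [sum_Sc, sum_zero_eq _ fun j => by rw [hZ0', zero_mul], hT', hI', hΛ', hX', hJ',
        if_neg (by simp), mul_zero, mul_zero, zero_add, zero_add, zero_add,
        mul_one, ← haL, ← haX, ← haJ, ← add_assoc] at h4
      exact h4
    obtain ⟨hL0, hX0, hJ0⟩ := crit (lam b) hl0 (lams_res L b) (L.i0 b)
      (fun i => L.yr b (Sum.inr i)) (yr_sum L b) (yr_i0 L b) aL aX aJ E (by
        linear_combination -hS + aJ * hQ2) hy
    have hI0 : aI = 0 := by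
      have h4 := h3 (Sum.inl ())
      rw [sum_Sc, sum_zero_eq _ fun j => by rw [hZ0', zero_mul], hT', hI', if_pos rfl, ← haL,
        ← haX, ← haJ, hL0, hX0, hJ0, zero_mul, zero_mul, zero_mul, mul_zero, add_zero, add_zero,
        add_zero, zero_add, zero_add, ← haI, mul_neg, mul_one] at h4
      exact neg_eq_zero.mp h4
    rintro (j | i | j | j | j | j)
    · exact haT ▸ hT0
    · exact hZ0' i
    exacts [haI ▸ hI0, haL ▸ hL0, haX ▸ hX0, haJ ▸ hJ0]

end Pool.Agent.H96.ZM
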