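import Pool.Agent.H96.ZM.LE

/-!
# Local regularity
-/

set_option autoImplicit false
set_option linter.unusedSectionVars false

namespace Pool.Agent.H96.ZM

open MvPolynomial IsLocalRing Pool.Agent.H96.Reg Pool.Agent.H96.VL Pool.Agent.H96.W
open Pool.Agent.H96.Z (cring)
open Pool.Agent.H96.W2 (BX mem_BX)

variable {p : ℕ} [Fact p.Prime] {K : Type} [Field K] [Algebra (ZMod p) K]
  {V : ValuationSubring K} {A I Dd Nn B : Type} [Fintype A] [DecidableEq A] [Fintype Nn]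
  [DecidableEq Nn] [Fintype Dd] [DecidableEq Dd] [Fintype B] [DecidableEq B] {R : B → ℕ} {N : ℕ}
  {lam : ∀ b, Fin (R b + 1) → ℤ} {Nw : Fin N → ℕ} {ew : Fin N → Zx R → ℤ} {M M' : ℕ}
  {L : LD p V A I Dd Nn B R lam Nw ew M}

open Classical in
/-- The values of the additional variables. -/
noncomputable def LD.YY (L : LD p V A I Dd Nn B R lam Nw ew M) : Θx R → K :=
  fun s => if V.valuation (L.σ s.1) = 1 then 0 else L.YC s.1 s.2

theorem YY_N {b : B} (h : V.valuation (L.σ b) = 1) (θ : Tc (R b)) : L.YY ⟨b, θ⟩ = 0 := if_pos h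

theorem YY_C {b : B} (h : V.valuation (L.σ b) < 1) (θ : Tc (R b)) : L.YY ⟨b, θ⟩ = L.YC b θ :=
  if_neg h.ne

theorem vYY [Algebra (ZMod p) (ResidueField V)] (θ : Θx R) : V.valuation (L.YY θ) ≤ 1 := by
  obtain ⟨b, θ⟩ := θ
  rcases (L.vσ b).lt_or_eq with h | h
  · rw [YY_C h]
    exact vYC L b h θ
  · rw [YY_N h, map_zero]
    exact zero_le

/-- **Local regularity.** -/
theorem isRegular_local [Algebra (ZMod p) (ResidueField V)] {C : Cone (Ix A R N)}
    (h : Cx L M' C) (hR : ∀ b, 2 ≤ R b)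
    (halg : Algebra.IsAlgebraic (Algebra.adjoin (ZMod p)
      (Set.range (Sum.elim (fun j => mon L.τ (C.b j)) (Sum.elim L.y L.YY)))) K)
    (htr : ((Fintype.card Dd + ∑ b, (R b - 2) : ℕ) : Cardinal.{0}) ≤ Algebra.trdeg (ZMod p) K) :
    IsRegularLocalRing (cring V L.τ (Sum.elim L.y L.YY) C) := by
  classical
  have hc : ∀ b, ∃ (c : Sc (R b) → Tx R → L.Po) (x : Sc (R b) → Tx R → Ix A R N → ℤ)
      (s₀ : Sc (R b) → Tx R), Bok L L.YY M' b c x s₀ := by
    intro b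
    rcases (L.vσ b).lt_or_eq with h1 | h1
    · obtain ⟨c⟩ := exists_ci p (lam b) (L.lamp b)
      exact ⟨_, _, _, bokC h b c h1 (YY_C h1)⟩
    · exact ⟨_, _, _, bokN h b h1 (YY_N h1)⟩
  choose c x s₀ hB using hc
  exact isRegular_blocks h vYY c x s₀ hB hR halg htr

end Pool.Agent.H96.ZM
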