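import Pool.Agent.H96.ZM.LB

/-!
# The relations of a block away from the critical point
-/

set_option autoImplicit false
set_option linter.unusedSectionVars false

namespace Pool.Agent.H96.ZM

open MvPolynomial IsLocalRing Pool.Agent.H96.Reg Pool.Agent.H96.VL Pool.Agent.H96.W
open Pool.Agent.H96.Z (Ls Ds c2 x2 cl xl isRegular_of_terms rel_two rel_lin Ls_two Ds_two Ls_tt
  Ds_tt Ls_G Ds_G Ls_U Ds_U Ls_V Ds_V Ls_lin Ds_lin mon_zero' cring abs_single abs_zero_le abs_fz_le
  cS sum_cS)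
open Pool.Agent.H96.W2 (BX mem_BX zero_mem_BX single_mem_BX single_one_mem_BX neg_mem_BX)
open Pool.Agent.H96.S (cond_t cond_f zc0 zc_ne resv_aevalp sum_single_eq sum_zero_eq)

variable {p : ℕ} [Fact p.Prime] {K : Type} [Field K] [Algebra (ZMod p) K]
  {V : ValuationSubring K} {A I Dd Nn B : Type} [Fintype A] [DecidableEq A] [Fintype Nn]
  [DecidableEq Nn] [Fintype Dd] [DecidableEq Dd] [Fintype B] [DecidableEq B] {R : B → ℕ} {N : ℕ}
  {lam : ∀ b, Fin (R b + 1) → ℤ} {Nw : Fin N → ℕ} {ew : Fin N → Zx R → ℤ} {M M' : ℕ}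
  {L : LD p V A I Dd Nn B R lam Nw ew M}

/-- The exponent of a form. -/
def gz (A : Type) {B : Type} [DecidableEq B] (R : B → ℕ) (N : ℕ) (s : Zx R) : Ix A R N → ℤ :=
  EV 0 (Pi.single s 1) 0 0

theorem mon_gz (s : Zx R) : mon L.τ (gz A R N s) = L.ζ s.1 s.2 := L.mon_zi s.1 s.2

theorem gz_mem (h : 2 ≤ M') (s : Zx R) : gz A R N s ∈ BX (Ix A R N) M' := by
  have h1 : |(1 : ℤ)| ≤ (M' : ℤ) := by
    rw [abs_one]
    exact_mod_cast (show 1 ≤ M' from (by decide : 1 ≤ 2).trans h)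
  exact EV_mem abs_fz_le (abs_single h1 _) abs_fz_le abs_fz_le

theorem gz_self (s : Zx R) : gz A R N s (Sum.inr (Sum.inl s)) = 1 := by
  rw [gz, EV_z, Pi.single_eq_same]

theorem gz_ne {s s' : Zx R} (h : s' ≠ s) : gz A R N s (Sum.inr (Sum.inl s')) = 0 := by
  rw [gz, EV_z, Pi.single_eq_of_ne h]

theorem sum_gz {β : Type} [CommRing β] (f : Zx R → β) (s : Zx R) :
    ∑ j, f j * ((gz A R N j (Sum.inr (Sum.inl s)) : ℤ) : β) = f s := by
  classical
  rw [Finset.sum_eq_single s]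
  · rw [gz_self, Int.cast_one, mul_one]
  · intro j _ hj
    rw [gz_ne (Ne.symm hj), Int.cast_zero, mul_zero]
  · intro h; exact absurd (Finset.mem_univ _) h

theorem sum_gz0 {β : Type} [CommRing β] (f : Zx R → β) {α : Ix A R N}
    (hα : ∀ j, gz A R N j α = 0) :
    ∑ j, f j * ((gz A R N j α : ℤ) : β) = 0 :=
  Finset.sum_eq_zero fun j _ => by rw [hα, Int.cast_zero, mul_zero]

/-- The coefficients of a block. -/
def fb {B : Type} [DecidableEq B] {R : B → ℕ} {β : Type} [Zero β] (b : B)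
    (f : ∀ b, Fin (R b + 1) → β) : Zx R → β := fun s => if s.1 = b then f s.1 s.2 else 0

theorem fb_self {β : Type} [Zero β] (b : B) (f : ∀ b, Fin (R b + 1) → β) (i : Fin (R b + 1)) :
    fb b f ⟨b, i⟩ = f b i := if_pos rfl

theorem fb_ne {β : Type} [Zero β] {b b' : B} (h : b' ≠ b) (f : ∀ b, Fin (R b + 1) → β)
    (i : Fin (R b' + 1)) : fb b f ⟨b', i⟩ = 0 := if_neg h

theorem sum_fb {β : Type} [Field β] [Algebra (ZMod p) β] (b : B)
    (f : ∀ b, Fin (R b + 1) → ZMod p) (g : Zx R → β) :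
    ∑ s, algebraMap (ZMod p) β (fb b f s) * g s =
      ∑ i, algebraMap (ZMod p) β (f b i) * g ⟨b, i⟩ := by
  rw [Fintype.sum_sigma, Finset.sum_eq_single b]
  · exact Finset.sum_congr rfl fun i _ => by rw [fb_self]
  · intro b' _ hb
    exact Finset.sum_eq_zero fun i _ => by rw [fb_ne hb, map_zero, zero_mul]
  · intro h; exact absurd (Finset.mem_univ _) h

section Defs

variable (L) (b : B)

/-- The coefficients of the relations of the block. -/
noncomputable def LD.nc : Sc (R b) → Tx R → L.Po :=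
  Sum.elim (fun _ => c2 _ 1 (-1))
    (Sum.elim (fun i => c2 _ (X (Sum.inr ⟨b, Sum.inr i⟩)) 0)
      (Sum.elim (fun _ => c2 _ (X (Sum.inr ⟨b, Sum.inl ()⟩)) 0)
        (Sum.elim (fun _ => cl (fb b fun _ _ => 1) 0)
          (Sum.elim (fun _ => c2 _ 1 (-X (Sum.inl (L.qc b))))
            fun _ => cl (fb b fun b => cS p (lam b) (L.i0 b)) 1))))

/-- The exponents of the relations of the block. -/
def LD.nx : Sc (R b) → Tx R → Ix A R N → ℤ :=
  Sum.elim (fun _ => x2 _ (gz A R N ⟨b, L.m b⟩) 0)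
    (Sum.elim (fun _ => x2 _ 0 0)
      (Sum.elim (fun _ => x2 _ 0 0)
        (Sum.elim (fun _ => xl (gz A R N) 0)
          (Sum.elim (fun _ => x2 _ (EV 0 (blk b lam) 0 0) (EV (L.κc b) 0 0 0))
            fun _ => xl (gz A R N) (EV 0 0 (Pi.single b 1) 0)))))

/-- The leading terms of the relations of the block. -/
def LD.ns : Sc (R b) → Tx R :=
  Sum.elim (fun _ => Sum.inr true) (Sum.elim (fun _ => Sum.inr true)
    (Sum.elim (fun _ => Sum.inr true) (Sum.elim (fun _ => Sum.inl ⟨b, L.m b⟩)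
      fun _ => Sum.inr true)))

end Defs

theorem sum_Sc {r : ℕ} {β : Type} [AddCommMonoid β] (g : Sc r → β) : ∑ j, g j =
    g (Sum.inl ()) + (∑ i, g (Sum.inr (Sum.inl i)) + (g (Sum.inr (Sum.inr (Sum.inl ()))) +
      (g (Sum.inr (Sum.inr (Sum.inr (Sum.inl ())))) +
        (g (Sum.inr (Sum.inr (Sum.inr (Sum.inr (Sum.inl ()))))) +
          g (Sum.inr (Sum.inr (Sum.inr (Sum.inr (Sum.inr ()))))))))) := by
  have hu : ∀ g : Unit → β, ∑ u, g u = g () := fun g => by
    rw [Finset.univ_unique, Finset.sum_singleton]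
  rw [Fintype.sum_sum_type, Fintype.sum_sum_type, Fintype.sum_sum_type, Fintype.sum_sum_type,
    Fintype.sum_sum_type, hu, hu, hu, hu, hu]

theorem Ls_TT [Algebra (ZMod p) (ResidueField V)] {Y : Θx R → K} (b : B) (α : Ix A R N) :
    Ls V L.τ (Sum.elim L.y Y) (c2 (Zx R) (1 : L.Po) (-1)) (x2 (Zx R) (gz A R N ⟨b, L.m b⟩) 0)
      (Sum.inr true) α = ((gz A R N ⟨b, L.m b⟩ α : ℤ) : ResidueField V) :=
  Ls_U L.τ_ne_zero α

/-- **The relations of a block away from the critical point.** -/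
theorem bokN [Algebra (ZMod p) (ResidueField V)] {C : Cone (Ix A R N)}
    (h : Cx L M' C) {Y : Θx R → K} (b : B) (hσ : V.valuation (L.σ b) = 1)
    (hY : ∀ θ, Y ⟨b, θ⟩ = 0) : Bok L Y M' b (L.nc b) (L.nx b) (L.ns b) := by
  classical
  have hL1 : |(1 : ℤ)| ≤ (M' : ℤ) := by
    rw [abs_one]
    exact_mod_cast (show 1 ≤ M' from (by decide : 1 ≤ 2).trans h.h2)
  have h3 : ∀ x : ℤ, |x| ≤ M → |x| ≤ M' := fun x hx => hx.trans (by exact_mod_cast h.hM)
  -- the differentials
  have hT : ∀ α, Ls V L.τ (Sum.elim L.y Y) (L.nc b (Sum.inl ())) (L.nx b (Sum.inl ()))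
      (L.ns b (Sum.inl ())) α = ((gz A R N ⟨b, L.m b⟩ α : ℤ) : ResidueField V) := fun α => Ls_TT b α
  have hT' : ∀ l, Ds V L.τ (Sum.elim L.y Y) (L.nc b (Sum.inl ())) (L.nx b (Sum.inl ()))
      (L.ns b (Sum.inl ())) l = 0 := fun l => Ds_U L.τ_ne_zero l
  have hU : ∀ i α, Ls V L.τ (Sum.elim L.y Y) (L.nc b (Sum.inr (Sum.inl i)))
      (L.nx b (Sum.inr (Sum.inl i))) (L.ns b (Sum.inr (Sum.inl i))) α = 0 := fun i α => Ls_G _ _ α
  have hU' : ∀ i l, Ds V L.τ (Sum.elim L.y Y) (L.nc b (Sum.inr (Sum.inl i)))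
      (L.nx b (Sum.inr (Sum.inl i))) (L.ns b (Sum.inr (Sum.inl i))) l =
      if l = Sum.inr ⟨b, Sum.inr i⟩ then 1 else 0 := by
    intro i l
    refine (Ds_G _ _).trans ?_
    rw [pderiv_X, Pi.single_apply]
    by_cases hl : l = Sum.inr ⟨b, Sum.inr i⟩
    · rw [if_pos hl.symm, if_pos hl, map_one]
    · rw [if_neg (Ne.symm hl), if_neg hl, map_zero]
  have hW : ∀ α, Ls V L.τ (Sum.elim L.y Y) (L.nc b (Sum.inr (Sum.inr (Sum.inl ()))))
      (L.nx b (Sum.inr (Sum.inr (Sum.inl ())))) (L.ns b (Sum.inr (Sum.inr (Sum.inl ())))) α = 0 :=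
    fun α => Ls_G _ _ α
  have hW' : ∀ l, Ds V L.τ (Sum.elim L.y Y) (L.nc b (Sum.inr (Sum.inr (Sum.inl ()))))
      (L.nx b (Sum.inr (Sum.inr (Sum.inl ())))) (L.ns b (Sum.inr (Sum.inr (Sum.inl ())))) l =
      if l = Sum.inr ⟨b, Sum.inl ()⟩ then 1 else 0 := by
    intro l
    refine (Ds_G _ _).trans ?_
    rw [pderiv_X, Pi.single_apply]
    by_cases hl : l = Sum.inr ⟨b, Sum.inl ()⟩
    · rw [if_pos hl.symm, if_pos hl, map_one]
    · rw [if_neg (Ne.symm hl), if_neg hl, map_zero]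
  have hLL : ∀ α, Ls V L.τ (Sum.elim L.y Y) (L.nc b (Sum.inr (Sum.inr (Sum.inr (Sum.inl ())))))
      (L.nx b (Sum.inr (Sum.inr (Sum.inr (Sum.inl ())))))
      (L.ns b (Sum.inr (Sum.inr (Sum.inr (Sum.inl ()))))) α =
      ∑ s, (algebraMap (ZMod p) (ResidueField V) (fb b (fun _ _ => 1) s) *
        resv V (L.ζ s.1 s.2)) * ((gz A R N s α : ℤ) : ResidueField V) := by
    intro α
    refine (Ls_lin _ _ _ _ _ α).trans ?_
    rw [map_zero, zero_mul, zero_mul, add_zero]
    refine Finset.sum_congr rfl fun j _ => ?_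
    have h1 : xl (gz A R N) 0 (L.ns b (Sum.inr (Sum.inr (Sum.inr (Sum.inl ()))))) =
      gz A R N ⟨b, L.m b⟩ := rfl
    rw [h1, mon_gz, mon_gz, L.ζm, div_one]
  have hLL' : ∀ l, Ds V L.τ (Sum.elim L.y Y) (L.nc b (Sum.inr (Sum.inr (Sum.inr (Sum.inl ())))))
      (L.nx b (Sum.inr (Sum.inr (Sum.inr (Sum.inl ())))))
      (L.ns b (Sum.inr (Sum.inr (Sum.inr (Sum.inl ()))))) l = 0 := fun l =>
    Ds_lin _ _ _ _ _ l (map_zero _)
  have hLM : ∀ α, Ls V L.τ (Sum.elim L.y Y)
      (L.nc b (Sum.inr (Sum.inr (Sum.inr (Sum.inr (Sum.inl ()))))))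
      (L.nx b (Sum.inr (Sum.inr (Sum.inr (Sum.inr (Sum.inl ()))))))
      (L.ns b (Sum.inr (Sum.inr (Sum.inr (Sum.inr (Sum.inl ())))))) α =
      ((EV (A := A) (N := N) 0 (blk b lam) 0 0 α : ℤ) : ResidueField V) +
      aeval (fun l => resv V (Sum.elim L.y Y l)) (-X (Sum.inl (L.qc b)) : L.Po) *
        resv V (mon L.τ (EV (L.κc b) 0 0 0) / mon L.τ (EV 0 (blk b lam) 0 0)) *
          ((EV (L.κc b) 0 0 0 α : ℤ) : ResidueField V) := by
    intro α
    refine (Ls_tt L.τ_ne_zero _ _ _ _ α).trans ?_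
    rw [map_one, one_mul]
  have hLM' : ∀ θ, Ds V L.τ (Sum.elim L.y Y)
      (L.nc b (Sum.inr (Sum.inr (Sum.inr (Sum.inr (Sum.inl ()))))))
      (L.nx b (Sum.inr (Sum.inr (Sum.inr (Sum.inr (Sum.inl ()))))))
      (L.ns b (Sum.inr (Sum.inr (Sum.inr (Sum.inr (Sum.inl ())))))) (Sum.inr θ) = 0 := by
    intro θ
    refine (Ds_tt L.τ_ne_zero _ _ _ _ _).trans ?_
    rw [← MvPolynomial.C_1, pderiv_C, map_zero, zero_add, map_neg, pderiv_X,
      Pi.single_eq_of_ne Sum.inl_ne_inr, neg_zero, map_zero, zero_mul]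
  have hLS : ∀ α, Ls V L.τ (Sum.elim L.y Y)
      (L.nc b (Sum.inr (Sum.inr (Sum.inr (Sum.inr (Sum.inr ()))))))
      (L.nx b (Sum.inr (Sum.inr (Sum.inr (Sum.inr (Sum.inr ()))))))
      (L.ns b (Sum.inr (Sum.inr (Sum.inr (Sum.inr (Sum.inr ())))))) α =
      ∑ s, (algebraMap (ZMod p) (ResidueField V)
        (fb b (fun b => cS p (lam b) (L.i0 b)) s) * resv V (L.ζ s.1 s.2 / L.σ b)) *
        ((gz A R N s α : ℤ) : ResidueField V) +
      ((EV (A := A) (R := R) (N := N) 0 0 (Pi.single b 1) 0 α : ℤ) : ResidueField V) := by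
    intro α
    refine (Ls_lin _ _ _ _ _ α).trans ?_
    have h1 : xl (gz A R N) (EV 0 0 (Pi.single b 1) 0)
      (L.ns b (Sum.inr (Sum.inr (Sum.inr (Sum.inr (Sum.inr ())))))) =
        EV 0 0 (Pi.single b 1) 0 := rfl
    rw [h1, L.mon_s, div_self (L.σ0 b), resv_one, map_one, one_mul, one_mul]
    congr 1
    refine Finset.sum_congr rfl fun j _ => ?_
    rw [mon_gz]
  have hLS' : ∀ l, Ds V L.τ (Sum.elim L.y Y)
      (L.nc b (Sum.inr (Sum.inr (Sum.inr (Sum.inr (Sum.inr ()))))))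
      (L.nx b (Sum.inr (Sum.inr (Sum.inr (Sum.inr (Sum.inr ()))))))
      (L.ns b (Sum.inr (Sum.inr (Sum.inr (Sum.inr (Sum.inr ())))))) l = 0 := fun l =>
    Ds_lin _ _ _ _ _ l (by rw [← MvPolynomial.C_1, pderiv_C])
  refine ⟨?_, ?_, ?_, ?_, ?_, ?_, ?_, ?_, ?_⟩
  · rintro (j | i | j | j | j | j) (s | _ | _)
    · exact zero_mem_BX
    · exact zero_mem_BX
    · exact gz_mem h.h2 _
    · exact zero_mem_BX
    · exact zero_mem_BX
    · exact zero_mem_BX
    · exact zero_mem_BX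
    · exact zero_mem_BX
    · exact zero_mem_BX
    · exact gz_mem h.h2 s
    · exact zero_mem_BX
    · exact zero_mem_BX
    · exact zero_mem_BX
    · exact EV_mem (fun a => h3 _ (L.κcM b a)) abs_fz_le abs_fz_le abs_fz_le
    · refine EV_mem abs_fz_le (fun i => ?_) abs_fz_le abs_fz_le
      rw [blk]
      split_ifs
      · exact h3 _ (L.lamM _ _)
      · exact abs_zero_le
    · exact gz_mem h.h2 s
    · exact zero_mem_BX
    · exact EV_mem abs_fz_le abs_fz_le (abs_single hL1 _) abs_fz_le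
  · rintro (j | i | j | j | j | j)
    · refine (rel_two (y := Sum.elim L.y Y) _ _ _ _).trans ?_
      rw [mon_gz, L.ζm, mon_zero', map_neg, map_one]; ring
    · refine (rel_two (y := Sum.elim L.y Y) _ _ _ _).trans ?_
      rw [aeval_X, map_zero, zero_mul, add_zero, Sum.elim_inr, hY, zero_mul]
    · refine (rel_two (y := Sum.elim L.y Y) _ _ _ _).trans ?_
      rw [aeval_X, map_zero, zero_mul, add_zero, Sum.elim_inr, hY, zero_mul]
    · refine (rel_lin (y := Sum.elim L.y Y) _ _ _ _).trans ?_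
      rw [map_zero, zero_mul, add_zero, sum_fb b _ fun s => mon L.τ (gz A R N s), ← L.ζs b]
      refine Finset.sum_congr rfl fun i _ => ?_
      rw [map_one, one_mul, mon_gz]
    · refine (rel_two (y := Sum.elim L.y Y) _ _ _ _).trans ?_
      rw [L.mon_zb, L.mon_t, L.eqc, map_one, map_neg, aeval_X, Sum.elim_inl]; ring
    · refine (rel_lin (y := Sum.elim L.y Y) _ _ _ _).trans ?_
      have h1 := L.eqη b (L.i0 b)
      rw [L.ηi0, mul_one] at h1
      rw [sum_fb b _ fun s => mon L.τ (gz A R N s)]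
      simp only [mon_gz]
      rw [sum_cS (lam b) (L.i0 b) (L.ζ b), map_one, one_mul, L.mon_s, ← h1]
      ring
  · rintro (j | i | j | j | j | j)
    · exact Or.inl one_ne_zero
    · exact Or.inl (X_ne_zero _)
    · exact Or.inl (X_ne_zero _)
    · left
      show MvPolynomial.C (fb b (fun _ _ => (1 : ZMod p)) ⟨b, L.m b⟩) ≠ 0
      rw [fb_self, MvPolynomial.C_1]
      exact one_ne_zero
    · exact Or.inl one_ne_zero
    · exact Or.inl one_ne_zero
  · rintro (j | i | j | j | j | j) (s | _ | _) hs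
    · exact absurd rfl hs
    · show V.valuation (mon L.τ 0) ≤ V.valuation (mon L.τ (gz A R N ⟨b, L.m b⟩))
      rw [mon_zero', mon_gz, L.ζm]
    · exact le_rfl
    · exact absurd rfl hs
    · exact absurd rfl hs
    · exact le_rfl
    · exact absurd rfl hs
    · exact absurd rfl hs
    · exact le_rfl
    · show V.valuation (mon L.τ (gz A R N s)) ≤ V.valuation (mon L.τ (gz A R N ⟨b, L.m b⟩))
      rw [mon_gz, mon_gz, L.ζm, map_one]
      exact L.vζ _ _
    · exact absurd rfl hs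
    · exact absurd rfl hs
    · exact absurd rfl hs
    · show V.valuation (mon L.τ (EV (L.κc b) 0 0 0)) ≤ V.valuation (mon L.τ (EV 0 (blk b lam) 0 0))
      rw [L.mon_zb, L.mon_t, L.eqc, map_mul, L.vqc, one_mul]
    · exact le_rfl
    · show V.valuation (mon L.τ (gz A R N s)) ≤ V.valuation (mon L.τ (EV 0 0 (Pi.single b 1) 0))
      rw [mon_gz, L.mon_s, hσ]
      exact L.vζ _ _
    · exact absurd rfl hs
    · exact le_rfl
  · rintro (j | i | j | j | j | j) c'
    · exact (hT _).trans (zc0 V)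
    · exact hU _ _
    · exact hW _
    · exact (hLL _).trans (sum_gz0 _ fun _ => rfl)
    · refine (hLM _).trans ?_
      rw [EV_w, EV_w, Pi.zero_apply, Int.cast_zero, mul_zero, add_zero]
    · refine (hLS _).trans ?_
      rw [sum_gz0 _ (fun _ => rfl), EV_w, Pi.zero_apply, Int.cast_zero, add_zero]
  · rintro (j | i | j | j | j | j) b' i' hb
    · refine (hT _).trans ?_
      rw [gz_ne (fun h => hb (congrArg Sigma.fst h)), Int.cast_zero]
    · exact hU _ _
    · exact hW _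
    · refine (hLL _).trans ?_
      rw [sum_gz, fb_ne hb, map_zero, zero_mul]
    · refine (hLM _).trans ?_
      rw [EV_z, EV_z, blk_ne hb, Pi.zero_apply, Int.cast_zero, mul_zero, add_zero]
    · refine (hLS _).trans ?_
      rw [sum_gz, fb_ne hb, map_zero, zero_mul, EV_z, Pi.zero_apply, Int.cast_zero, add_zero]
  · rintro (j | i | j | j | j | j) b' hb
    · exact (hT _).trans (zc0 V)
    · exact hU _ _
    · exact hW _
    · exact (hLL _).trans (sum_gz0 _ fun _ => rfl)
    · refine (hLM _).trans ?_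
      rw [EV_s, EV_s, Pi.zero_apply, Int.cast_zero, mul_zero, add_zero]
    · refine (hLS _).trans ?_
      rw [sum_gz0 _ (fun _ => rfl), EV_s, Pi.single_eq_of_ne hb, Int.cast_zero, add_zero]
  · rintro (j | i | j | j | j | j) b' θ hb
    · exact hT' _
    · rw [hU', if_neg (fun h => hb (congrArg Sigma.fst (Sum.inr_injective h)))]
    · refine (hW' _).trans ?_
      rw [if_neg (fun h => hb (congrArg Sigma.fst (Sum.inr_injective h)))]
    · exact hLL' _
    · exact hLM' _
    · exact hLS' _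
  · intro a h1 h2 h3
    obtain ⟨aT, haT⟩ : ∃ f, f = a (Sum.inl ()) := ⟨_, rfl⟩
    obtain ⟨aL, haL⟩ : ∃ f, f = a (Sum.inr (Sum.inr (Sum.inr (Sum.inl ())))) := ⟨_, rfl⟩
    obtain ⟨aM, haM⟩ : ∃ f, f = a (Sum.inr (Sum.inr (Sum.inr (Sum.inr (Sum.inl ()))))) := ⟨_, rfl⟩
    obtain ⟨aS, haS⟩ : ∃ f, f = a (Sum.inr (Sum.inr (Sum.inr (Sum.inr (Sum.inr ()))))) := ⟨_, rfl⟩
    have hS : aS = 0 := by
      rw [sum_Sc, hT, hW, hLL, hLM, hLS, sum_zero_eq _ fun i => by rw [hU, mul_zero],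
        sum_gz0 _ (fun _ => rfl), sum_gz0 _ (fun _ => rfl), EV_s, EV_s, EV_s,
        Pi.single_eq_same, Pi.zero_apply] at h2
      have h4 : gz A R N ⟨b, L.m b⟩ (Sum.inr (Sum.inr (Sum.inl b))) = 0 := rfl
      simp only [h4, Int.cast_zero, Int.cast_one, mul_zero, zero_add, add_zero, mul_one] at h2
      rw [haS]
      exact h2
    have h4 : ∀ i, aT * (if i = L.m b then 1 else 0) + (aL * resv V (L.ζ b i) +
        aM * (lam b i : ResidueField V)) = 0 := by
      intro i
      have h4 := h1 i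
      rw [sum_Sc, hT, hW, hLL, hLM, sum_zero_eq _ fun i => by rw [hU, mul_zero],
        ← haT, ← haL, ← haM, ← haS, hS, zero_mul, add_zero, sum_gz, EV_z, EV_z, blk_self,
        Pi.zero_apply, Int.cast_zero, mul_zero, mul_zero, add_zero, zero_add, zero_add, fb_self,
        map_one, one_mul] at h4
      by_cases hi : i = L.m b
      · rw [if_pos hi]
        subst hi
        rw [gz_self, Int.cast_one] at h4
        exact h4
      · rw [gz_ne (fun h => hi (by simpa using h)), Int.cast_zero] at h4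
        rw [if_neg hi]
        exact h4
    have hζs : ∑ i, resv V (L.ζ b i) = 0 := by
      have h4 := (resv_aevalp V (L.ζ b) (L.vζ b)
        (∑ i, X i : MvPolynomial (Fin (R b + 1)) (ZMod p))).2
      rw [map_sum, map_sum] at h4
      simp only [aeval_X] at h4
      rw [← h4, L.ζs]
      exact resv_zero
    have hlams : ∑ i, (lam b i : ResidueField V) = 0 := by
      rw [← Int.cast_sum, L.lams, Int.cast_zero]
    have hT0 : aT = 0 := by
      have h5 : ∑ i, (aT * (if i = L.m b then 1 else 0) + (aL * resv V (L.ζ b i) +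
        aM * (lam b i : ResidueField V))) = 0 := Finset.sum_eq_zero fun i _ => h4 i
      rw [Finset.sum_add_distrib, Finset.sum_add_distrib, ← Finset.mul_sum, ← Finset.mul_sum,
        ← Finset.mul_sum, hζs, hlams, mul_zero, mul_zero, add_zero, add_zero,
        Finset.sum_ite_eq' Finset.univ (L.m b), if_pos (Finset.mem_univ _), mul_one] at h5
      exact h5
    have h5 : ∀ i, aL * resv V (L.ζ b i) + aM * (lam b i : ResidueField V) = 0 := by
      intro i
      have h6 := h4 i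
      rwa [hT0, zero_mul, zero_add] at h6
    have h6 : (lam b 0 : ResidueField V) * resv V (L.ζ b (L.i0 b).succ) -
        lam b (L.i0 b).succ * resv V (L.ζ b 0) = resv V (L.σ b) := by
      have h4 := (resv_aevalp V (L.ζ b) (L.vζ b) (MvPolynomial.C (lam b 0 : ZMod p) *
        X (L.i0 b).succ - MvPolynomial.C (lam b (L.i0 b).succ : ZMod p) * X 0)).2
      rw [map_sub, map_mul, map_mul, map_sub, map_mul, map_mul, aeval_C, aeval_C, aeval_X,
        aeval_X, aeval_C, aeval_C, aeval_X, aeval_X, map_intCast, map_intCast, map_intCast,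
        map_intCast, L.eqη, L.ηi0, mul_one] at h4
      exact h4.symm
    have h7 : resv V (L.σ b) ≠ 0 := (resv_ne_zero_iff hσ.le).mpr hσ
    have hL0 : aL = 0 := by
      have h8 : aL * resv V (L.σ b) = 0 := by
        rw [← h6]
        linear_combination (lam b 0 : ResidueField V) * h5 (L.i0 b).succ -
          (lam b (L.i0 b).succ : ResidueField V) * h5 0
      exact (mul_eq_zero.mp h8).resolve_right h7
    have hM0 : aM = 0 := by
      have h8 := h5 0
      rw [hL0, zero_mul, zero_add] at h8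
      exact (mul_eq_zero.mp h8).resolve_right (zc_ne V (L.lamp b 0))
    rintro (j | i | j | j | j | j)
    · exact haT ▸ hT0
    · have h8 := h3 (Sum.inr i)
      rw [sum_Sc, hT', hW', hLL', hLM', hLS', sum_single_eq _ i fun i' hi => by
        rw [hU', if_neg (fun h => hi (by simpa using h.symm)), mul_zero], hU', if_pos rfl,
        if_neg (by simp), mul_zero, mul_zero, mul_zero, mul_zero, mul_zero, mul_one, add_zero,
        add_zero, add_zero, add_zero, zero_add] at h8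
      exact h8
    · have h8 := h3 (Sum.inl ())
      rw [sum_Sc, hT', hW', hLL', hLM', hLS', sum_zero_eq _ fun i' => by
        rw [hU', if_neg (by simp), mul_zero], if_pos rfl,
        mul_zero, mul_zero, mul_zero, mul_zero, mul_one, add_zero,
        add_zero, add_zero, zero_add, zero_add] at h8
      exact h8
    exacts [haL ▸ hL0, haM ▸ hM0, haS ▸ hS]

end Pool.Agent.H96.ZM
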